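import Pool.Agent.TH619.Base

set_option autoImplicit false
namespace Pool.Agent.TH369.J168
open Set Topology Filter Pool.Agent.TH619
open scoped InnerProductSpace Manifold ContDiff

section abs

variable {V W : Type} [NormedAddCommGroup V] [InnerProductSpace ℝ V] [FiniteDimensional ℝ V]
  [NormedAddCommGroup W] [InnerProductSpace ℝ W]

theorem dec_exists (J : V →L[ℝ] W) (z : W) :
    ∃ v : V, (∀ w : V, ⟪z - J v, J w⟫_ℝ = 0) ∧
      Metric.infDist z (LinearMap.range J.toLinearMap : Set W) = ‖z - J v‖ := by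
  have hfd : FiniteDimensional ℝ (LinearMap.range J.toLinearMap) := inferInstance
  obtain ⟨y, hy, w, hw, hyw⟩ :=
    (LinearMap.range J.toLinearMap).exists_add_mem_mem_orthogonal z
  obtain ⟨v, rfl⟩ := hy
  have hzv : z - J v = w := by
    rw [hyw]; simp
  refine ⟨v, ?_, ?_⟩
  · intro u
    rw [hzv, real_inner_comm]
    exact hw _ ⟨u, rfl⟩
  · apply le_antisymm
    · have := Metric.infDist_le_dist_of_mem (x := z)
        (show J v ∈ (LinearMap.range J.toLinearMap : Set W) from ⟨v, rfl⟩)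
      rwa [dist_eq_norm] at this
    · rw [Metric.le_infDist ⟨_, (LinearMap.range J.toLinearMap).zero_mem⟩]
      rintro _ ⟨u, rfl⟩
      rw [dist_eq_norm]
      change ‖z - J v‖ ≤ ‖z - J u‖
      have h1 : ⟪z - J v, J (v - u)⟫_ℝ = 0 := by
        rw [hzv, real_inner_comm]
        exact hw _ ⟨v - u, rfl⟩
      have h2 : z - J u = (z - J v) + J (v - u) := by rw [map_sub]; abel
      have h3 : ‖z - J u‖ ^ 2 = ‖z - J v‖ ^ 2 + ‖J (v - u)‖ ^ 2 := by
        rw [h2, norm_add_sq_real, h1]; ring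
      have h4 : ‖z - J v‖ ^ 2 ≤ ‖z - J u‖ ^ 2 := by
        rw [h3]; nlinarith [sq_nonneg ‖J (v - u)‖]
      exact le_of_sq_le_sq h4 (norm_nonneg _)

theorem cmp {J J' : V →L[ℝ] W} {l δ : ℝ} (hl : 0 < l) (hJ : ∀ v, l * ‖v‖ ≤ ‖J v‖)
    (hδ0 : 0 ≤ δ) (hδ : ∀ v, ‖J v - J' v‖ ≤ δ * ‖v‖) {z : W} {v v' : V}
    (hv : ∀ w, ⟪z - J v, J w⟫_ℝ = 0) (hv' : ∀ w, ⟪z - J' v', J' w⟫_ℝ = 0) :
    ‖J v‖ ≤ ‖J' v'‖ + δ / l * ‖z - J' v'‖ ∧ ‖z - J' v'‖ ≤ ‖z - J v‖ + δ / l * ‖J v‖ := by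
  have hvn : ‖v‖ ≤ ‖J v‖ / l := by
    rw [le_div_iff₀ hl, mul_comm]; exact hJ v
  have hd : ‖J v - J' v‖ ≤ δ / l * ‖J v‖ := by
    calc ‖J v - J' v‖ ≤ δ * ‖v‖ := hδ v
      _ ≤ δ * (‖J v‖ / l) := mul_le_mul_of_nonneg_left hvn hδ0
      _ = δ / l * ‖J v‖ := by ring
  constructor
  · by_contra hcon
    push Not at hcon
    have hpos : 0 < ‖J v‖ := lt_of_le_of_lt (by positivity) hcon
    have h1 : ‖J v‖ ^ 2 = ⟪J' v', J v⟫_ℝ + ⟪z - J' v', J v - J' v⟫_ℝ := by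
      have e1 : ⟪z, J v⟫_ℝ = ‖J v‖ ^ 2 := by
        have := hv v
        rw [inner_sub_left, real_inner_self_eq_norm_sq] at this
        linarith
      have e2 : ⟪z - J' v', J v - J' v⟫_ℝ = ⟪z, J v⟫_ℝ - ⟪J' v', J v⟫_ℝ := by
        rw [inner_sub_right, hv' v, inner_sub_left]; ring
      rw [e2, e1]; ring
    have h2 := real_inner_le_norm (J' v') (J v)
    have h3 := real_inner_le_norm (z - J' v') (J v - J' v)
    have h4 : ‖z - J' v'‖ * ‖J v - J' v‖ ≤ ‖z - J' v'‖ * (δ / l * ‖J v‖) :=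
      mul_le_mul_of_nonneg_left hd (norm_nonneg _)
    nlinarith
  · by_contra hcon
    push Not at hcon
    have hpos : 0 < ‖z - J' v'‖ := lt_of_le_of_lt (by positivity) hcon
    have h1 : ‖z - J' v'‖ ^ 2 = ⟪z - J v, z - J' v'⟫_ℝ + ⟪J v - J' v, z - J' v'⟫_ℝ := by
      have e1 : ⟪z - J' v', z - J' v'⟫_ℝ = ‖z - J' v'‖ ^ 2 := real_inner_self_eq_norm_sq _
      have e2 : ⟪J' v', z - J' v'⟫_ℝ = 0 := by rw [real_inner_comm]; exact hv' v'
      have e3 : ⟪J' v, z - J' v'⟫_ℝ = 0 := by rw [real_inner_comm]; exact hv' v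
      have e4 : ⟪z - J v, z - J' v'⟫_ℝ + ⟪J v - J' v, z - J' v'⟫_ℝ
          = ⟪z, z - J' v'⟫_ℝ := by
        rw [← inner_add_left, ← sub_zero ⟪z, z - J' v'⟫_ℝ, ← e3, ← inner_sub_left]
        congr 1; abel
      rw [e4, ← e1, inner_sub_left (x := z) (y := J' v'), e2, sub_zero]
    have h2 := real_inner_le_norm (z - J v) (z - J' v')
    have h3 := real_inner_le_norm (J v - J' v) (z - J' v')
    have h4 : ‖J v - J' v‖ * ‖z - J' v'‖ ≤ (δ / l * ‖J v‖) * ‖z - J' v'‖ :=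
      mul_le_mul_of_nonneg_right hd (norm_nonneg _)
    nlinarith

/-- length of the normal part -/
noncomputable def nn (g : V → W) (z : W) (q : V) : ℝ :=
  Metric.infDist z (LinearMap.range (fderiv ℝ g q).toLinearMap : Set W)

theorem nn_nonneg (g : V → W) (z : W) (q : V) : 0 ≤ nn g z q := Metric.infDist_nonneg

theorem nn_le (g : V → W) (z : W) (q : V) : nn g z q ≤ ‖z‖ := by
  have := Metric.infDist_le_dist_of_mem (x := z)
    (show (0 : W) ∈ (LinearMap.range (fderiv ℝ g q).toLinearMap : Set W) from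
      (LinearMap.range (fderiv ℝ g q).toLinearMap).zero_mem)
  rwa [dist_zero_right] at this

theorem nn_lip {g : V → W} {B : Set V} {l C : ℝ} (hl0 : 0 < l) (hC0 : 0 ≤ C)
    (hl : ∀ q ∈ B, ∀ v, l * ‖v‖ ≤ ‖fderiv ℝ g q v‖)
    (hC : ∀ q ∈ B, ∀ q' ∈ B, ∀ v,
      ‖fderiv ℝ g q v - fderiv ℝ g q' v‖ ≤ C * ‖q - q'‖ * ‖v‖)
    {z : W} (hz : ‖z‖ = 1) {q q' : V} (hq : q ∈ B) (hq' : q' ∈ B) {v' : V}
    (hv' : ∀ w, ⟪z - fderiv ℝ g q' v', fderiv ℝ g q' w⟫_ℝ = 0)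
    (hn' : nn g z q' = ‖z - fderiv ℝ g q' v'‖) :
    |nn g z q - nn g z q'| ≤
      C / l * ‖q - q'‖ * (‖fderiv ℝ g q' v'‖ + C / l * ‖q - q'‖) := by
  obtain ⟨v, hv, hn⟩ := dec_exists (fderiv ℝ g q) z
  change nn g z q = _ at hn
  have hδ0 : 0 ≤ C * ‖q - q'‖ := by positivity
  have h1 := cmp hl0 (hl q hq) hδ0 (hC q hq q' hq') hv hv'
  have h2 := cmp (J := fderiv ℝ g q') (J' := fderiv ℝ g q) hl0 (hl q' hq') hδ0
    (fun w => by rw [norm_sub_rev]; exact hC q hq q' hq' w) hv' hv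
  rw [← hn, ← hn'] at h1 h2
  have h3 : nn g z q' ≤ 1 := hz ▸ nn_le g z q'
  have e : C * ‖q - q'‖ / l = C / l * ‖q - q'‖ := by ring
  rw [e] at h1 h2
  have hd0 : 0 ≤ C / l * ‖q - q'‖ := by positivity
  set D := C / l * ‖q - q'‖ with hD
  rw [abs_le]
  constructor
  · have a1 : D * nn g z q' ≤ D * 1 := mul_le_mul_of_nonneg_left h3 hd0
    have a2 : D * ‖fderiv ℝ g q v‖ ≤ D * (‖fderiv ℝ g q' v'‖ + D) :=
      mul_le_mul_of_nonneg_left (by linarith [h1.1]) hd0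
    linarith [h1.2]
  · have a3 : 0 ≤ D * D := mul_nonneg hd0 hd0
    nlinarith [h2.2]

theorem normal_of_max {g : V → W} {B : Set V} {l C : ℝ} (hB : IsOpen B) (hl0 : 0 < l) (hC0 : 0 ≤ C)
    (hd : ∀ q ∈ B, DifferentiableAt ℝ g q)
    (hl : ∀ q ∈ B, ∀ v, l * ‖v‖ ≤ ‖fderiv ℝ g q v‖)
    (hC : ∀ q ∈ B, ∀ q' ∈ B, ∀ v,
      ‖fderiv ℝ g q v - fderiv ℝ g q' v‖ ≤ C * ‖q - q'‖ * ‖v‖)
    {z : W} (hz : ‖z‖ = 1) {q' : V} (hq' : q' ∈ B) {v' : V}
    (hv' : ∀ w, ⟪z - fderiv ℝ g q' v', fderiv ℝ g q' w⟫_ℝ = 0)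
    (hn' : nn g z q' = ‖z - fderiv ℝ g q' v'‖) {c : ℝ} (hc : |c| * (C / l ^ 2) < 1)
    (hmax : IsLocalMax (fun p => ⟪z, g p⟫_ℝ + c * nn g z p) q') :
    fderiv ℝ g q' v' = 0 := by
  by_contra hne
  have hpos : 0 < ‖fderiv ℝ g q' v'‖ := norm_pos_iff.mpr hne
  set a := ‖fderiv ℝ g q' v'‖ with ha
  have hvn : ‖v'‖ ≤ a / l := by
    rw [le_div_iff₀ hl0, mul_comm]; exact hl q' hq' v'
  -- the auxiliary function
  let F : ℝ → ℝ := fun s => ⟪z, g (q' + s • v')⟫_ℝ - ⟪z, g q'⟫_ℝ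
    - |c| * (C / l * (s * ‖v'‖) * (a + C / l * (s * ‖v'‖)))
  have hF0 : F 0 = 0 := by simp [F]
  have hder : HasDerivAt F (a ^ 2 - |c| * (C / l * ‖v'‖ * a)) 0 := by
    have h1 : HasDerivAt (fun s : ℝ => q' + s • v') v' 0 := by
      simpa using (hasDerivAt_id (0 : ℝ)).smul_const v' |>.const_add q'
    have h2 : HasFDerivAt g (fderiv ℝ g q') (q' + (0 : ℝ) • v') := by
      simpa using (hd q' hq').hasFDerivAt
    have h3 : HasDerivAt (fun s : ℝ => g (q' + s • v')) (fderiv ℝ g q' v') 0 :=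
      h2.comp_hasDerivAt 0 h1
    have h4 : HasDerivAt (fun s : ℝ => ⟪z, g (q' + s • v')⟫_ℝ) (⟪z, fderiv ℝ g q' v'⟫_ℝ) 0 := by
      exact (innerSL ℝ z).hasFDerivAt.comp_hasDerivAt (0 : ℝ) h3
    have e1 : ⟪z, fderiv ℝ g q' v'⟫_ℝ = a ^ 2 := by
      have := hv' v'
      rw [inner_sub_left, real_inner_self_eq_norm_sq] at this
      linarith
    have h5 : HasDerivAt (fun s : ℝ => C / l * (s * ‖v'‖)) (C / l * ‖v'‖) 0 := by
      have := ((hasDerivAt_id (0 : ℝ)).mul_const ‖v'‖).const_mul (C / l)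
      simpa using this
    have h6 : HasDerivAt (fun s : ℝ => |c| * (C / l * (s * ‖v'‖) * (a + C / l * (s * ‖v'‖))))
        (|c| * (C / l * ‖v'‖ * a)) 0 := by
      have := (h5.mul (h5.const_add a)).const_mul |c|
      simpa using this
    have h7 := (h4.sub_const (⟪z, g q'⟫_ℝ)).sub h6
    rw [e1] at h7
    exact h7
  have hle : ∀ᶠ s : ℝ in 𝓝[>] 0, F s ≤ 0 := by
    have hcont : Tendsto (fun s : ℝ => q' + s • v') (𝓝[>] 0) (𝓝 q') := by
      have : Continuous (fun s : ℝ => q' + s • v') := by fun_prop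
      have h := this.tendsto 0
      simp only [zero_smul, add_zero] at h
      exact h.mono_left nhdsWithin_le_nhds
    have e1 := hcont.eventually hmax
    have e2 := hcont.eventually (hB.mem_nhds hq')
    filter_upwards [e1, e2, self_mem_nhdsWithin] with s hs1 hs2 hs3
    have hs0 : (0 : ℝ) < s := hs3
    have h1 := nn_lip hl0 hC0 hl hC hz hs2 hq' hv' hn'
    have e3 : ‖q' + s • v' - q'‖ = s * ‖v'‖ := by
      rw [add_sub_cancel_left, norm_smul, Real.norm_of_nonneg hs0.le]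
    rw [e3] at h1
    have h2 : c * nn g z q' - c * nn g z (q' + s • v') ≤
        |c| * |nn g z (q' + s • v') - nn g z q'| := by
      rw [← mul_sub, ← abs_mul]
      rw [← neg_sub (nn g z (q' + s • v')) (nn g z q'), mul_neg]
      exact neg_le_abs _
    have h3 := mul_le_mul_of_nonneg_left h1 (abs_nonneg c)
    simp only [F]
    linarith
  have hlim := hder.tendsto_slope_zero_right
  have : a ^ 2 - |c| * (C / l * ‖v'‖ * a) ≤ 0 := by
    refine le_of_tendsto hlim ?_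
    filter_upwards [hle, self_mem_nhdsWithin] with s hs1 hs2
    have hs0 : (0 : ℝ) < s := hs2
    rw [hF0, zero_add, sub_zero, smul_eq_mul]
    exact mul_nonpos_of_nonneg_of_nonpos (by positivity) hs1
  have h1 : |c| * (C / l * ‖v'‖ * a) ≤ |c| * (C / l ^ 2) * a ^ 2 := by
    have : C / l * ‖v'‖ * a ≤ C / l * (a / l) * a :=
      mul_le_mul_of_nonneg_right (mul_le_mul_of_nonneg_left hvn (by positivity)) hpos.le
    calc |c| * (C / l * ‖v'‖ * a) ≤ |c| * (C / l * (a / l) * a) :=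
          mul_le_mul_of_nonneg_left this (abs_nonneg c)
      _ = |c| * (C / l ^ 2) * a ^ 2 := by field_simp
  nlinarith [pow_pos hpos 2]

/-- a function with `h ≤ a |Dh|²` and quadratic upper bound is nonpositive near the point -/
theorem no_pos {h : V → ℝ} {q' : V} {ρ C a : ℝ} (hρ : 0 < ρ) (hC0 : 0 < C) (_ha : 0 ≤ a)
    (haC : 8 * C * a ≤ 1)
    (hd : ∀ q ∈ Metric.closedBall q' ρ, DifferentiableAt ℝ h q)
    (h1 : ∀ q ∈ Metric.closedBall q' ρ, h q ≤ C * ‖q - q'‖ ^ 2)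
    (h2 : ∀ q ∈ Metric.closedBall q' ρ, h q ≤ a * ‖fderiv ℝ h q‖ ^ 2)
    {q1 : V} (hq1 : ‖q1 - q'‖ ≤ ρ / 4) : h q1 ≤ 0 := by
  by_contra hcon
  push Not at hcon
  have hq1m : q1 ∈ Metric.closedBall q' ρ := by
    rw [mem_closedBall_iff_norm]; linarith
  let ψ : V → ℝ := fun q => h q - 2 * C * ‖q - q1‖ ^ 2
  have hcont : ContinuousOn ψ (Metric.closedBall q' ρ) := by
    apply ContinuousOn.sub
    · exact fun q hq => (hd q hq).continuousAt.continuousWithinAt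
    · fun_prop
  obtain ⟨q2, hq2, hmax⟩ := (isCompact_closedBall q' ρ).exists_isMaxOn ⟨q1, hq1m⟩ hcont
  have e1 : h q1 ≤ h q2 - 2 * C * ‖q2 - q1‖ ^ 2 := by
    have := hmax hq1m
    simpa [ψ] using this
  have hq2n : ‖q2 - q'‖ ≤ ρ := by rwa [mem_closedBall_iff_norm] at hq2
  rcases hq2n.lt_or_eq with hlt | heq
  · -- interior
    have hint : q2 ∈ interior (Metric.closedBall q' ρ) := by
      apply Metric.ball_subset_interior_closedBall
      rw [mem_ball_iff_norm]; exact hlt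
    have hlm : IsLocalMax ψ q2 := hmax.isLocalMax (mem_interior_iff_mem_nhds.mp hint)
    have hdψ : HasFDerivAt ψ (fderiv ℝ h q2 - (2 * C) • (2 • (innerSL ℝ (q2 - q1)))) q2 := by
      have k1 := (hd q2 hq2).hasFDerivAt
      have k2 : HasFDerivAt (fun q : V => q - q1) (ContinuousLinearMap.id ℝ V) q2 :=
        (hasFDerivAt_id q2).sub_const q1
      have k3 := k2.norm_sq
      rw [ContinuousLinearMap.comp_id] at k3
      have k4 := k3.const_mul (2 * C)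
      exact k1.sub k4
    have hz0 := hlm.hasFDerivAt_eq_zero hdψ
    have e2 : fderiv ℝ h q2 = (2 * C) • (2 • (innerSL ℝ (q2 - q1))) := sub_eq_zero.mp hz0
    have e3 : ‖fderiv ℝ h q2‖ = 4 * C * ‖q2 - q1‖ := by
      rw [e2, norm_smul, ← Nat.cast_smul_eq_nsmul ℝ, norm_smul, innerSL_apply_norm,
        Real.norm_of_nonneg (by positivity)]
      norm_num
      ring
    have e4 := h2 q2 hq2
    rw [e3] at e4
    have e5 : 0 ≤ ‖q2 - q1‖ ^ 2 := by positivity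
    have e6 : a * (4 * C * ‖q2 - q1‖) ^ 2 = (8 * C * a) * (2 * C * ‖q2 - q1‖ ^ 2) := by ring
    have e7 : (8 * C * a) * (2 * C * ‖q2 - q1‖ ^ 2) ≤ 1 * (2 * C * ‖q2 - q1‖ ^ 2) :=
      mul_le_mul_of_nonneg_right haC (by positivity)
    linarith
  · -- boundary
    have e2 : 3 * ρ / 4 ≤ ‖q2 - q1‖ := by
      have := norm_sub_norm_le (q2 - q') (q1 - q')
      rw [heq, sub_sub_sub_cancel_right] at this
      linarith
    have e3 := h1 q2 hq2
    rw [heq] at e3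
    have e4 : (3 * ρ / 4) ^ 2 ≤ ‖q2 - q1‖ ^ 2 := by
      apply pow_le_pow_left₀ (by positivity) e2
    have e5 : 2 * C * (3 * ρ / 4) ^ 2 ≤ 2 * C * ‖q2 - q1‖ ^ 2 :=
      mul_le_mul_of_nonneg_left e4 (by positivity)
    have e6 : 2 * C * (3 * ρ / 4) ^ 2 = 9 / 8 * (C * ρ ^ 2) := by ring
    have e7 : 0 < C * ρ ^ 2 := by positivity
    linarith

theorem local_max_abs {g : V → W} {B : Set V} {l C : ℝ} (hB : IsOpen B) (hl0 : 0 < l)
    (hC0 : 0 < C)
    (hd : ∀ q ∈ B, DifferentiableAt ℝ g q)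
    (hl : ∀ q ∈ B, ∀ v, l * ‖v‖ ≤ ‖fderiv ℝ g q v‖)
    (hC : ∀ q ∈ B, ∀ q' ∈ B, ∀ v,
      ‖fderiv ℝ g q v - fderiv ℝ g q' v‖ ≤ C * ‖q - q'‖ * ‖v‖)
    {ε : ℝ} (hε : 0 < ε) (hε1 : 8 * C * (ε / l ^ 2) ≤ 1)
    {z : W} (hz : ‖z‖ = 1) {q' : V} (hq' : q' ∈ B) :
    (IsLocalMax (fun p => ⟪z, g p⟫_ℝ + ε * nn g z p) q' → IsLocalMax (fun p => ⟪z, g p⟫_ℝ) q') ∧
    (IsLocalMax (fun p => ⟪z, g p⟫_ℝ - ε * nn g z p) q' →
      IsLocalMax (fun p => ⟪z, g p⟫_ℝ) q') := by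
  obtain ⟨v', hv', hn'⟩ := dec_exists (fderiv ℝ g q') z
  change nn g z q' = _ at hn'
  have hsmall : ε * (C / l ^ 2) < 1 := by
    have e : 8 * C * (ε / l ^ 2) = 8 * (ε * (C / l ^ 2)) := by ring
    have : 0 ≤ ε * (C / l ^ 2) := by positivity
    linarith
  constructor
  · intro hmax
    have hv0 := normal_of_max hB hl0 hC0.le hd hl hC hz hq' hv' hn'
      (c := ε) (by rwa [abs_of_pos hε]) hmax
    have hn1 : nn g z q' = 1 := by rw [hn', hv0, sub_zero, hz]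
    have hder : ∀ q ∈ B, HasFDerivAt (fun p => ⟪z, g p⟫_ℝ - ⟪z, g q'⟫_ℝ)
        ((innerSL ℝ z).comp (fderiv ℝ g q)) q := by
      intro q hq
      exact ((innerSL ℝ z).hasFDerivAt.comp q (hd q hq).hasFDerivAt).sub_const _
    have hDq' : (innerSL ℝ z).comp (fderiv ℝ g q') = 0 := by
      ext w
      have := hv' w
      rw [hv0, sub_zero] at this
      simpa using this
    have hev : ∀ᶠ q in 𝓝 q', ⟪z, g q⟫_ℝ + ε * nn g z q ≤ ⟪z, g q'⟫_ℝ + ε * nn g z q' := hmax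
    obtain ⟨ρ1, hρ1, hb1⟩ := Metric.eventually_nhds_iff_ball.mp (hev.and (hB.mem_nhds hq'))
    set ρ := ρ1 / 2 with hρdef
    have hρ : 0 < ρ := by positivity
    have hsub : ∀ q ∈ Metric.closedBall q' ρ, q ∈ Metric.ball q' ρ1 := by
      intro q hq
      rw [mem_closedBall_iff_norm] at hq
      rw [mem_ball_iff_norm]; linarith
    change ∀ᶠ q in 𝓝 q', _
    filter_upwards [Metric.closedBall_mem_nhds q' (show (0 : ℝ) < ρ / 4 by positivity)] with q1 hq1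
    rw [mem_closedBall_iff_norm] at hq1
    refine sub_nonpos.mp (no_pos (V := V) (h := fun p => ⟪z, g p⟫_ℝ - ⟪z, g q'⟫_ℝ) (q' := q')
      (ρ := ρ) (C := C) (a := ε / l ^ 2) hρ hC0 (by positivity) hε1
      (fun q hq => (hder q (hb1 q (hsub q hq)).2).differentiableAt) ?_ ?_ hq1)
    · -- quadratic bound
      intro q hq
      rw [mem_closedBall_iff_norm] at hq
      have hball : ∀ p ∈ Metric.closedBall q' ‖q - q'‖, p ∈ B := by
        intro p hp
        rw [mem_closedBall_iff_norm] at hp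
        exact (hb1 p (hsub p (by rw [mem_closedBall_iff_norm]; linarith))).2
      have hb : ∀ p ∈ Metric.closedBall q' ‖q - q'‖,
          ‖(innerSL ℝ z).comp (fderiv ℝ g p)‖ ≤ C * ‖q - q'‖ := by
        intro p hp
        have hpB := hball p hp
        rw [mem_closedBall_iff_norm] at hp
        refine ContinuousLinearMap.opNorm_le_bound _ (by positivity) (fun w => ?_)
        have e1 : (innerSL ℝ z).comp (fderiv ℝ g p) w =
            ⟪z, fderiv ℝ g p w - fderiv ℝ g q' w⟫_ℝ := by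
          have e2 : ⟪z, fderiv ℝ g q' w⟫_ℝ = 0 := by
            have := congrArg (fun L : V →L[ℝ] ℝ => L w) hDq'
            simpa using this
          rw [inner_sub_right, e2, sub_zero]
          rfl
        rw [e1]
        calc ‖⟪z, fderiv ℝ g p w - fderiv ℝ g q' w⟫_ℝ‖
            ≤ ‖z‖ * ‖fderiv ℝ g p w - fderiv ℝ g q' w‖ := norm_inner_le_norm _ _
          _ ≤ 1 * (C * ‖p - q'‖ * ‖w‖) := by
              rw [hz]
              exact mul_le_mul_of_nonneg_left (hC p hpB q' hq' w) zero_le_one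
          _ ≤ C * ‖q - q'‖ * ‖w‖ := by
              rw [one_mul]
              exact mul_le_mul_of_nonneg_right
                (mul_le_mul_of_nonneg_left hp hC0.le) (norm_nonneg _)
      have := (convex_closedBall q' ‖q - q'‖).norm_image_sub_le_of_norm_hasFDerivWithin_le
        (f := fun p => ⟪z, g p⟫_ℝ - ⟪z, g q'⟫_ℝ)
        (fun p hp => (hder p (hball p hp)).hasFDerivWithinAt) hb
        (Metric.mem_closedBall_self (norm_nonneg _))
        (show q ∈ Metric.closedBall q' ‖q - q'‖ by rw [mem_closedBall_iff_norm])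
      have h2 := le_trans (le_abs_self _) this
      simp only [sub_self, sub_zero] at h2
      calc ⟪z, g q⟫_ℝ - ⟪z, g q'⟫_ℝ ≤ C * ‖q - q'‖ * ‖q - q'‖ := h2
        _ = C * ‖q - q'‖ ^ 2 := by ring
    · -- gradient bound
      intro q hq
      obtain ⟨h1, hqB⟩ := hb1 q (hsub q hq)
      rw [(hder q hqB).fderiv]
      obtain ⟨v, hv, hn⟩ := dec_exists (fderiv ℝ g q) z
      change nn g z q = _ at hn
      rw [hn1] at h1
      have e1 : ⟪z, fderiv ℝ g q v⟫_ℝ = ‖fderiv ℝ g q v‖ ^ 2 := by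
        have := hv v
        rw [inner_sub_left, real_inner_self_eq_norm_sq] at this
        linarith
      have e2 : (1 : ℝ) = nn g z q ^ 2 + ‖fderiv ℝ g q v‖ ^ 2 := by
        have e3 : z = (z - fderiv ℝ g q v) + fderiv ℝ g q v := by abel
        have e4 : ‖z‖ ^ 2 = ‖z - fderiv ℝ g q v‖ ^ 2 + ‖fderiv ℝ g q v‖ ^ 2 := by
          conv_lhs => rw [e3]
          rw [norm_add_sq_real, hv v]; ring
        rw [hn, ← e4, hz]; norm_num
      have e5 : 0 ≤ nn g z q := nn_nonneg g z q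
      have e6 : nn g z q ≤ 1 := hz ▸ nn_le g z q
      have e7 : l * ‖fderiv ℝ g q v‖ ≤ ‖(innerSL ℝ z).comp (fderiv ℝ g q)‖ := by
        by_cases h0 : ‖fderiv ℝ g q v‖ = 0
        · rw [h0, mul_zero]; exact norm_nonneg _
        · have hp : 0 < ‖fderiv ℝ g q v‖ := lt_of_le_of_ne (norm_nonneg _) (Ne.symm h0)
          have h3 := ((innerSL ℝ z).comp (fderiv ℝ g q)).le_opNorm v
          have h4 : ((innerSL ℝ z).comp (fderiv ℝ g q)) v = ‖fderiv ℝ g q v‖ ^ 2 := e1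
          rw [h4, Real.norm_of_nonneg (by positivity)] at h3
          have h5 := hl q hqB v
          have h6 : l * ‖fderiv ℝ g q v‖ ^ 2 ≤
              ‖(innerSL ℝ z).comp (fderiv ℝ g q)‖ * ‖fderiv ℝ g q v‖ := by
            calc l * ‖fderiv ℝ g q v‖ ^ 2 ≤
                l * (‖(innerSL ℝ z).comp (fderiv ℝ g q)‖ * ‖v‖) :=
                  mul_le_mul_of_nonneg_left h3 hl0.le
              _ = ‖(innerSL ℝ z).comp (fderiv ℝ g q)‖ * (l * ‖v‖) := by ring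
              _ ≤ _ := mul_le_mul_of_nonneg_left h5 (norm_nonneg _)
          nlinarith
      have e8 : ‖fderiv ℝ g q v‖ ^ 2 ≤ ‖(innerSL ℝ z).comp (fderiv ℝ g q)‖ ^ 2 / l ^ 2 := by
        rw [le_div_iff₀ (by positivity)]
        have := pow_le_pow_left₀ (by positivity) e7 2
        calc ‖fderiv ℝ g q v‖ ^ 2 * l ^ 2 = (l * ‖fderiv ℝ g q v‖) ^ 2 := by ring
          _ ≤ _ := this
      have e9 : 1 - nn g z q ≤ ‖fderiv ℝ g q v‖ ^ 2 := by nlinarith
      calc ⟪z, g q⟫_ℝ - ⟪z, g q'⟫_ℝ ≤ ε * (1 - nn g z q) := by linarith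
        _ ≤ ε * (‖(innerSL ℝ z).comp (fderiv ℝ g q)‖ ^ 2 / l ^ 2) :=
            mul_le_mul_of_nonneg_left (e9.trans e8) hε.le
        _ = ε / l ^ 2 * ‖(innerSL ℝ z).comp (fderiv ℝ g q)‖ ^ 2 := by ring
  · intro hmax
    have hmax' : IsLocalMax (fun p => ⟪z, g p⟫_ℝ + (-ε) * nn g z p) q' := by
      simpa [neg_mul, sub_eq_add_neg] using hmax
    have hv0 := normal_of_max hB hl0 hC0.le hd hl hC hz hq' hv' hn'
      (c := -ε) (by rwa [abs_neg, abs_of_pos hε]) hmax'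
    have hn1 : nn g z q' = 1 := by rw [hn', hv0, sub_zero, hz]
    have hev : ∀ᶠ q in 𝓝 q', ⟪z, g q⟫_ℝ - ε * nn g z q ≤ ⟪z, g q'⟫_ℝ - ε * nn g z q' := hmax
    change ∀ᶠ q in 𝓝 q', _
    filter_upwards [hev] with q hq
    rw [hn1] at hq
    have e6 : nn g z q ≤ 1 := hz ▸ nn_le g z q
    have : ε * nn g z q ≤ ε * 1 := mul_le_mul_of_nonneg_left e6 hε.le
    linarith

end abs

/-- length of the normal part of `z` at `q` -/
noncomputable def nl (g : E 2 → E 4) (z : E 4) (q : E 2) : ℝ :=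
  Metric.infDist z (LinearMap.range (fderiv ℝ g q).toLinearMap : Set (E 4))

theorem local_max {g : E 2 → E 4} {U : Set (E 2)} (hU : IsOpen U) (hg : ContDiffOn ℝ ∞ g U)
    (hinj : ∀ q ∈ U, Function.Injective (fderiv ℝ g q)) {q₀ : E 2} (hq₀ : q₀ ∈ U) :
    ∃ ε₀ : ℝ, 0 < ε₀ ∧ ∃ r : ℝ, 0 < r ∧ Metric.ball q₀ r ⊆ U ∧
      ∀ ε : ℝ, 0 < ε → ε < ε₀ → ∀ z : E 4, ‖z‖ = 1 → ∀ q ∈ Metric.ball q₀ r,
        (IsLocalMax (fun p => ⟪z, g p⟫_ℝ + ε * nl g z p) q → IsLocalMax (fun p => ⟪z, g p⟫_ℝ) q) ∧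
        (IsLocalMax (fun p => ⟪z, g p⟫_ℝ - ε * nl g z p) q → IsLocalMax (fun p => ⟪z, g p⟫_ℝ) q) := by
  have hcd : ContDiffAt ℝ ∞ g q₀ := hg.contDiffAt (hU.mem_nhds hq₀)
  have hcd1 : ContDiffAt ℝ 1 (fderiv ℝ g) q₀ := hcd.fderiv_right (by norm_cast)
  obtain ⟨K, t, ht, hLip⟩ := hcd1.exists_lipschitzOnWith
  obtain ⟨κ, hκ, hanti⟩ := (fderiv ℝ g q₀).toLinearMap.exists_antilipschitzWith
    (LinearMap.ker_eq_bot.mpr (hinj q₀ hq₀))
  set C : ℝ := K + 1 with hCdef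
  have hC0 : 0 < C := by positivity
  have hκ0 : (0 : ℝ) < κ := hκ
  set l : ℝ := 1 / (2 * κ) with hldef
  have hl0 : 0 < l := by positivity
  obtain ⟨r1, hr1, hb1⟩ := Metric.mem_nhds_iff.mp (Filter.inter_mem ht (hU.mem_nhds hq₀))
  set r := min r1 (l / C) with hrdef
  have hr : 0 < r := lt_min hr1 (by positivity)
  have hsub : Metric.ball q₀ r ⊆ Metric.ball q₀ r1 := Metric.ball_subset_ball (min_le_left _ _)
  have hCb : ∀ q ∈ Metric.ball q₀ r, ∀ q' ∈ Metric.ball q₀ r, ∀ v,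
      ‖fderiv ℝ g q v - fderiv ℝ g q' v‖ ≤ C * ‖q - q'‖ * ‖v‖ := by
    intro q hq q' hq' v
    have h1 := hLip.norm_sub_le (hb1 (hsub hq)).1 (hb1 (hsub hq')).1
    calc ‖fderiv ℝ g q v - fderiv ℝ g q' v‖ = ‖(fderiv ℝ g q - fderiv ℝ g q') v‖ := rfl
      _ ≤ ‖fderiv ℝ g q - fderiv ℝ g q'‖ * ‖v‖ := ContinuousLinearMap.le_opNorm _ _
      _ ≤ (K * ‖q - q'‖) * ‖v‖ := mul_le_mul_of_nonneg_right h1 (norm_nonneg _)
      _ ≤ C * ‖q - q'‖ * ‖v‖ := by
          apply mul_le_mul_of_nonneg_right _ (norm_nonneg _)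
          apply mul_le_mul_of_nonneg_right _ (norm_nonneg _)
          rw [hCdef]; linarith
  have hq₀r : q₀ ∈ Metric.ball q₀ r := Metric.mem_ball_self hr
  refine ⟨l ^ 2 / (8 * C), by positivity, r, hr, fun q hq => (hb1 (hsub hq)).2, ?_⟩
  intro ε hε hε0 z hz q hq
  have := local_max_abs (V := E 2) (W := E 4) (g := g) (B := Metric.ball q₀ r) (l := l) (C := C)
    Metric.isOpen_ball hl0 hC0 ?_ ?_ hCb hε ?_ hz hq
  · exact this
  · intro p hp
    exact (hg.contDiffAt (hU.mem_nhds (hb1 (hsub hp)).2)).differentiableAt (by simp)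
  · intro p hp v
    have h1 : ‖v‖ ≤ κ * ‖fderiv ℝ g q₀ v‖ := by
      have := hanti.le_mul_dist v 0
      simpa using this
    have h2 := hCb p hp q₀ hq₀r v
    have h3 : ‖p - q₀‖ ≤ l / C := by
      rw [mem_ball_iff_norm] at hp
      exact hp.le.trans (min_le_right _ _)
    have h4 : C * ‖p - q₀‖ * ‖v‖ ≤ l * ‖v‖ := by
      apply mul_le_mul_of_nonneg_right _ (norm_nonneg _)
      rw [le_div_iff₀ hC0] at h3
      linarith
    have h5 : 2 * l * ‖v‖ ≤ ‖fderiv ℝ g q₀ v‖ := by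
      have e : 2 * l * ‖v‖ = ‖v‖ / κ := by rw [hldef]; field_simp
      rw [e, div_le_iff₀ hκ0]; linarith
    have h6 := norm_sub_norm_le (fderiv ℝ g q₀ v) (fderiv ℝ g p v)
    rw [norm_sub_rev] at h6
    linarith
  · rw [lt_div_iff₀ (by positivity)] at hε0
    have : 8 * C * (ε / l ^ 2) = ε * (8 * C) / l ^ 2 := by ring
    rw [this, div_le_one (by positivity)]
    exact hε0.le

end Pool.Agent.TH369.J168
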