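import Pool.Agent.TH369.J167c

set_option autoImplicit false
set_option linter.unusedSectionVars false
namespace Pool.Agent.TH369.J167
open Set Topology Filter Pool.Agent.TH619
open scoped InnerProductSpace Manifold ContDiff

section chart

variable {M : Type} [TopologicalSpace M] [ChartedSpace (E 2) M]

theorem mem_NB_iff {f : M → E 4} (hI : Imm f) {x0 x : M} (hx : x ∈ (chartAt (E 2) x0).source)
    (ν : E 4) : (x, ν) ∈ NB f ↔ ‖ν‖ = 1 ∧
      ∀ v, ⟪ν, fderiv ℝ (rd f x0) (chartAt (E 2) x0 x) v⟫_ℝ = 0 := by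
  have hTP := J169.TP_eq hI hx
  constructor
  · rintro ⟨h1, h2⟩
    refine ⟨h1, fun v => ?_⟩
    rw [real_inner_comm]
    apply h2
    rw [← hTP]; exact ⟨v, rfl⟩
  · rintro ⟨h1, h2⟩
    refine ⟨h1, fun w hw => ?_⟩
    rw [← hTP] at hw
    obtain ⟨v, rfl⟩ := hw
    rw [real_inner_comm]
    exact h2 v

/-- local parametrisation of the unit normal bundle -/
noncomputable def pchart {f : M → E 4} (hI : Imm f) (x0 : M) {V : Set (E 2)} (hV : IsOpen V)
    (hVt : V ⊆ (chartAt (E 2) x0).target) (b n : E 4) (p : NB f) :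
    OpenPartialHomeomorph (NB f) (E 2 × ℝ) := by
  classical
  exact
  { toFun := fun m => (chartAt (E 2) x0 m.1.1, ⟪m.1.2, b⟫_ℝ / ⟪m.1.2, n⟫_ℝ)
    invFun := fun q => if h : q.1 ∈ V ∧ 0 < DD (rd f x0) b n q.1 then
      ⟨((chartAt (E 2) x0).symm q.1, nu (rd f x0) b n q), by
        have ht := hVt h.1
        have hs := (chartAt (E 2) x0).map_target ht
        rw [mem_NB_iff hI hs, (chartAt (E 2) x0).right_inv ht]
        exact ⟨norm_nu h.2, fun v => nu_orth _ _ _ q v⟩⟩ else p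
    source := {m | m.1.1 ∈ (chartAt (E 2) x0).source ∧ (chartAt (E 2) x0 m.1.1 ∈ V ∧
      0 < DD (rd f x0) b n (chartAt (E 2) x0 m.1.1)) ∧ 0 < ⟪m.1.2, n⟫_ℝ}
    target := {q | q.1 ∈ V ∧ 0 < DD (rd f x0) b n q.1}
    map_source' := fun m hm => hm.2.1
    map_target' := by
      intro q hq
      have hq' : q.1 ∈ V ∧ 0 < DD (rd f x0) b n q.1 := hq
      have ht := hVt hq'.1
      simp only [dif_pos hq']
      refine ⟨(chartAt (E 2) x0).map_target ht, ?_, nu_pos hq'.2⟩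
      change (chartAt (E 2) x0 ((chartAt (E 2) x0).symm q.1) ∈ V ∧ _)
      rw [(chartAt (E 2) x0).right_inv ht]
      exact hq'
    left_inv' := by
      intro m hm
      obtain ⟨h1, h2, h3⟩ := hm
      have hmem := (mem_NB_iff hI h1 m.1.2).mp m.2
      simp only [dif_pos h2]
      apply Subtype.ext
      refine Prod.ext ((chartAt (E 2) x0).left_inv h1) ?_
      exact eq_nu h2.2 hmem.1 hmem.2 h3
    right_inv' := by
      intro q hq
      have hq' : q.1 ∈ V ∧ 0 < DD (rd f x0) b n q.1 := hq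
      have ht := hVt hq'.1
      simp only [dif_pos hq']
      refine Prod.ext ((chartAt (E 2) x0).right_inv ht) ?_
      change ⟪nu (rd f x0) b n q, b⟫_ℝ / ⟪nu (rd f x0) b n q, n⟫_ℝ = q.2
      have h1 := nu_orth3 (rd f x0) b n q
      rw [inner_sub_right, inner_smul_right, sub_eq_zero] at h1
      rw [h1, mul_div_cancel_right₀ _ (nu_pos hq'.2).ne']
    open_source := by
      have h0 : Continuous (fun m : NB f => m.1.1) := continuous_fst.comp continuous_subtype_val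
      have hos : IsOpen {m : NB f | m.1.1 ∈ (chartAt (E 2) x0).source} :=
        (chartAt (E 2) x0).open_source.preimage h0
      have hoV : IsOpen {q | q ∈ V ∧ 0 < DD (rd f x0) b n q} := by
        have := (DD_cont hV ((hI x0).1.mono hVt) b n).isOpen_inter_preimage hV isOpen_Ioi (t := Ioi 0)
        exact this
      have ho1 : IsOpen ((chartAt (E 2) x0).source ∩
          (chartAt (E 2) x0) ⁻¹' {q | q ∈ V ∧ 0 < DD (rd f x0) b n q}) :=
        (chartAt (E 2) x0).continuousOn.isOpen_inter_preimage (chartAt (E 2) x0).open_source hoV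
      have ho2 : IsOpen {m : NB f | 0 < ⟪m.1.2, n⟫_ℝ} := by
        apply isOpen_lt continuous_const
        have : Continuous (fun m : NB f => m.1.2) := continuous_snd.comp continuous_subtype_val
        exact this.inner continuous_const
      have e : {m : NB f | m.1.1 ∈ (chartAt (E 2) x0).source ∧ (chartAt (E 2) x0 m.1.1 ∈ V ∧
          0 < DD (rd f x0) b n (chartAt (E 2) x0 m.1.1)) ∧ 0 < ⟪m.1.2, n⟫_ℝ} =
          ((fun m : NB f => m.1.1) ⁻¹' ((chartAt (E 2) x0).source ∩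
          (chartAt (E 2) x0) ⁻¹' {q | q ∈ V ∧ 0 < DD (rd f x0) b n q})) ∩
          {m : NB f | 0 < ⟪m.1.2, n⟫_ℝ} := by
        ext m
        constructor
        · rintro ⟨h1, h2, h3⟩; exact ⟨⟨h1, h2⟩, h3⟩
        · rintro ⟨⟨h1, h2⟩, h3⟩; exact ⟨h1, h2, h3⟩
      rw [e]
      exact (ho1.preimage h0).inter ho2
    open_target := by
      have hoV : IsOpen {q | q ∈ V ∧ 0 < DD (rd f x0) b n q} := by
        have := (DD_cont hV ((hI x0).1.mono hVt) b n).isOpen_inter_preimage hV isOpen_Ioi (t := Ioi 0)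
        exact this
      exact hoV.preimage continuous_fst
    continuousOn_toFun := by
      apply ContinuousOn.prodMk
      · apply (chartAt (E 2) x0).continuousOn.comp
          (continuous_fst.comp continuous_subtype_val).continuousOn
        intro m hm; exact hm.1
      · have h2 : Continuous (fun m : NB f => m.1.2) := continuous_snd.comp continuous_subtype_val
        apply ContinuousOn.div
        · exact (h2.inner continuous_const).continuousOn
        · exact (h2.inner continuous_const).continuousOn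
        · intro m hm; exact hm.2.2.ne'
    continuousOn_invFun := by
      rw [Topology.IsInducing.subtypeVal.continuousOn_iff]
      have h1 : ContinuousOn (fun q : E 2 × ℝ => (((chartAt (E 2) x0).symm q.1, nu (rd f x0) b n q) :
          M × E 4)) {q | q.1 ∈ V ∧ 0 < DD (rd f x0) b n q.1} := by
        apply ContinuousOn.prodMk
        · apply (chartAt (E 2) x0).continuousOn_symm.comp continuous_fst.continuousOn
          intro q hq; exact hVt hq.1
        · intro q hq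
          exact (nu_smooth hV ((hI x0).1.mono hVt) hq.1 hq.2).continuousAt.continuousWithinAt
      refine h1.congr ?_
      intro q hq
      have hq' : q.1 ∈ V ∧ 0 < DD (rd f x0) b n q.1 := hq
      simp only [Function.comp, dif_pos hq'] }

theorem pchart_symm {f : M → E 4} (hI : Imm f) (x0 : M) {V : Set (E 2)} (hV : IsOpen V)
    (hVt : V ⊆ (chartAt (E 2) x0).target) (b n : E 4) (p : NB f) {q : E 2 × ℝ}
    (hq : q ∈ (pchart hI x0 hV hVt b n p).target) :
    ((pchart hI x0 hV hVt b n p).symm q).1 = ((chartAt (E 2) x0).symm q.1, nu (rd f x0) b n q) := by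
  have hq' : q.1 ∈ V ∧ 0 < DD (rd f x0) b n q.1 := hq
  have ht := hVt hq'.1
  have hs := (chartAt (E 2) x0).map_target ht
  have hmem : ((chartAt (E 2) x0).symm q.1, nu (rd f x0) b n q) ∈ NB f := by
    rw [mem_NB_iff hI hs, (chartAt (E 2) x0).right_inv ht]
    exact ⟨norm_nu hq'.2, fun v => nu_orth _ _ _ q v⟩
  have e : (pchart hI x0 hV hVt b n p).symm q =
      (⟨((chartAt (E 2) x0).symm q.1, nu (rd f x0) b n q), hmem⟩ : NB f) := dif_pos hq'
  rw [e]

end chart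

/-- three vectors: two independent ones and a unit vector orthogonal to them -/
theorem crs_pos {J : E 2 →L[ℝ] E 4} (hJ : Function.Injective J) {n : E 4} (hn : ‖n‖ = 1)
    (ho : ∀ v, ⟪n, J v⟫_ℝ = 0) :
    0 < ⟪crs (J ea) (J eb) (-crs (J ea) (J eb) n), n⟫_ℝ := by
  set u := J ea with hu
  set v := J eb with hv
  rw [inner_crs_swap, inner_neg_right, neg_neg, crs_gram]
  have h1 : ⟪u, n⟫_ℝ = 0 := by rw [real_inner_comm]; exact ho ea
  have h2 : ⟪v, n⟫_ℝ = 0 := by rw [real_inner_comm]; exact ho eb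
  have h3 : ⟪n, n⟫_ℝ = 1 := by rw [real_inner_self_eq_norm_sq, hn]; norm_num
  rw [h1, h2, h3]
  have hvne : v ≠ 0 := by
    intro h
    have h0 : eb = 0 := hJ (by rw [map_zero]; exact h)
    have := congrArg (fun w : E 2 => w 1) h0
    simp [eb] at this
  have hvp : 0 < ⟪v, v⟫_ℝ := real_inner_self_pos.mpr hvne
  have hwne : ⟪v, v⟫_ℝ • u - ⟪u, v⟫_ℝ • v ≠ 0 := by
    intro h
    have e1 : J (⟪v, v⟫_ℝ • ea - ⟪u, v⟫_ℝ • eb) = 0 := by
      rw [map_sub, map_smul, map_smul]; exact h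
    have h0 : ⟪v, v⟫_ℝ • ea - ⟪u, v⟫_ℝ • eb = 0 := hJ (by rw [map_zero]; exact e1)
    have := congrArg (fun w : E 2 => w 0) h0
    simp [ea, eb] at this
    exact hvne this
  have hwp := real_inner_self_pos.mpr hwne
  have e2 : ⟪⟪v, v⟫_ℝ • u - ⟪u, v⟫_ℝ • v, ⟪v, v⟫_ℝ • u - ⟪u, v⟫_ℝ • v⟫_ℝ =
      ⟪v, v⟫_ℝ * (⟪u, u⟫_ℝ * ⟪v, v⟫_ℝ - ⟪u, v⟫_ℝ ^ 2) := by
    simp only [inner_sub_left, inner_sub_right, inner_smul_left, inner_smul_right, conj_trivial]
    rw [real_inner_comm u v]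
    ring
  rw [e2] at hwp
  have h5 := (pos_iff_pos_of_mul_pos hwp).mp hvp
  have : ⟪u, u⟫_ℝ * (⟪v, v⟫_ℝ * 1 - 0 ^ 2) - ⟪u, v⟫_ℝ * (⟪u, v⟫_ℝ * 1 - 0 * 0) +
      0 * (⟪u, v⟫_ℝ * 0 - ⟪v, v⟫_ℝ * 0) = ⟪u, u⟫_ℝ * ⟪v, v⟫_ℝ - ⟪u, v⟫_ℝ ^ 2 := by ring
  rw [this]
  exact h5

/-- local constants of an immersion -/
theorem exists_consts {g : E 2 → E 4} {U : Set (E 2)} (hU : IsOpen U) (hg : ContDiffOn ℝ ∞ g U)
    {q₀ : E 2} (hq₀ : q₀ ∈ U) (hJ : Function.Injective (fderiv ℝ g q₀)) :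
    ∃ ε₀ : ℝ, 0 < ε₀ ∧ ∃ V : Set (E 2), IsOpen V ∧ q₀ ∈ V ∧ V ⊆ U ∧
      ∃ l C : ℝ, 0 < l ∧ (∀ q ∈ V, ∀ v, l * ‖v‖ ≤ ‖fderiv ℝ g q v‖) ∧
      (∀ q ∈ V, ∀ v, ‖fderiv ℝ (fderiv ℝ g) q v v‖ ≤ C * ‖v‖ ^ 2) ∧
      ∀ ε : ℝ, 0 < ε → ε < ε₀ → ε * C < l ^ 2 := by
  have hcd : ContDiffAt ℝ ∞ g q₀ := hg.contDiffAt (hU.mem_nhds hq₀)
  have hcd1 : ContDiffAt ℝ 1 (fderiv ℝ g) q₀ := hcd.fderiv_right (by norm_cast)
  obtain ⟨K, s, hs, hLip⟩ := hcd1.exists_lipschitzOnWith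
  obtain ⟨l', hl', hb⟩ := J169.lower_bound hJ
  set C : ℝ := K + 1 with hC
  have hC0 : 0 < C := by positivity
  obtain ⟨r1, hr1, hball1⟩ := Metric.mem_nhds_iff.mp (Filter.inter_mem hs (hU.mem_nhds hq₀))
  set r := min r1 (l' / 2 / C) with hr
  have hr0 : 0 < r := lt_min hr1 (by positivity)
  have hsub : Metric.ball q₀ r ⊆ s ∩ U :=
    (Metric.ball_subset_ball (min_le_left _ _)).trans hball1
  have hq₀s : q₀ ∈ s := mem_of_mem_nhds hs
  refine ⟨(l' / 2) ^ 2 / C, by positivity, Metric.ball q₀ r, Metric.isOpen_ball,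
    Metric.mem_ball_self hr0, fun q hq => (hsub hq).2, l' / 2, C, by positivity, ?_, ?_, ?_⟩
  · intro q hq v
    have h1 : ‖fderiv ℝ g q - fderiv ℝ g q₀‖ ≤ K * ‖q - q₀‖ := hLip.norm_sub_le (hsub hq).1 hq₀s
    have h2 := hb v
    have h3 : ‖fderiv ℝ g q₀ v‖ - ‖fderiv ℝ g q v‖ ≤ ‖fderiv ℝ g q v - fderiv ℝ g q₀ v‖ := by
      rw [norm_sub_rev]; exact norm_sub_norm_le _ _
    have h4 : ‖fderiv ℝ g q v - fderiv ℝ g q₀ v‖ ≤ ‖fderiv ℝ g q - fderiv ℝ g q₀‖ * ‖v‖ :=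
      (fderiv ℝ g q - fderiv ℝ g q₀).le_opNorm v
    have h6 : ‖q - q₀‖ ≤ l' / 2 / C := by
      rw [mem_ball_iff_norm] at hq
      exact hq.le.trans (min_le_right _ _)
    have h7 : (K : ℝ) * ‖q - q₀‖ ≤ l' / 2 := by
      rw [le_div_iff₀ hC0] at h6
      have : (K : ℝ) * ‖q - q₀‖ ≤ ‖q - q₀‖ * C := by
        rw [mul_comm]
        exact mul_le_mul_of_nonneg_left (by rw [hC]; linarith) (norm_nonneg _)
      linarith
    have h5 : ‖fderiv ℝ g q - fderiv ℝ g q₀‖ * ‖v‖ ≤ l' / 2 * ‖v‖ :=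
      mul_le_mul_of_nonneg_right (h1.trans h7) (norm_nonneg _)
    linarith
  · intro q hq v
    have hsq : s ∈ 𝓝 q := Filter.mem_of_superset (Metric.isOpen_ball.mem_nhds hq)
      (fun y hy => (hsub hy).1)
    have h1 : ‖fderiv ℝ (fderiv ℝ g) q‖ ≤ K := norm_fderiv_le_of_lipschitzOn ℝ hsq hLip
    have h2 : ‖fderiv ℝ (fderiv ℝ g) q v v‖ ≤ ‖fderiv ℝ (fderiv ℝ g) q v‖ * ‖v‖ :=
      (fderiv ℝ (fderiv ℝ g) q v).le_opNorm v
    have h3 : ‖fderiv ℝ (fderiv ℝ g) q v‖ ≤ ‖fderiv ℝ (fderiv ℝ g) q‖ * ‖v‖ :=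
      (fderiv ℝ (fderiv ℝ g) q).le_opNorm v
    have h4 : ‖fderiv ℝ (fderiv ℝ g) q‖ * ‖v‖ ≤ C * ‖v‖ :=
      mul_le_mul_of_nonneg_right (by rw [hC]; linarith) (norm_nonneg _)
    calc ‖fderiv ℝ (fderiv ℝ g) q v v‖ ≤ (C * ‖v‖) * ‖v‖ :=
          h2.trans (mul_le_mul_of_nonneg_right (h3.trans h4) (norm_nonneg _))
      _ = C * ‖v‖ ^ 2 := by ring
  · intro ε _ h2
    rwa [lt_div_iff₀ hC0] at h2

theorem tube_manifold {M : Type} [TopologicalSpace M] [CompactSpace M] [T2Space M]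
    [ChartedSpace (E 2) M] {f : M → E 4} (hf : Continuous f) (hI : Imm f) :
    ∃ ε₀ : ℝ, 0 < ε₀ ∧ ∀ ε : ℝ, 0 < ε → ε < ε₀ →
      ∃ (_ : ChartedSpace (E 3) (NB f)) (_ : IsManifold 𝓘(ℝ, E 3) ∞ (NB f)),
        ContMDiff 𝓘(ℝ, E 3) 𝓘(ℝ, E 4) ∞ (fun q : NB f => tube f ε q.1) ∧
        ∀ q : NB f, Function.Injective
          (mfderiv 𝓘(ℝ, E 3) 𝓘(ℝ, E 4) (fun q : NB f => tube f ε q.1) q) := by
  have hloc : ∀ x0 : M, _ := fun x0 => exists_consts (chartAt (E 2) x0).open_target (hI x0).1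
    ((chartAt (E 2) x0).map_source (mem_chart_source (E 2) x0))
    ((hI x0).2 _ ((chartAt (E 2) x0).map_source (mem_chart_source (E 2) x0)))
  choose εf hεf V hV hxV hVt l C hl0 hl hC hεC using hloc
  have hN : ∀ x0 : M, (chartAt (E 2) x0).source ∩ (chartAt (E 2) x0) ⁻¹' (V x0) ∈ 𝓝 x0 := fun x0 =>
    Filter.inter_mem ((chartAt (E 2) x0).open_source.mem_nhds (mem_chart_source (E 2) x0))
      (((chartAt (E 2) x0).continuousAt (mem_chart_source (E 2) x0)).preimage_mem_nhds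
        ((hV x0).mem_nhds (hxV x0)))
  obtain ⟨t, ht⟩ := CompactSpace.elim_nhds_subcover _ hN
  obtain ⟨m, hm0, hm⟩ : ∃ m : ℝ, 0 < m ∧ ∀ x ∈ t, m ≤ εf x := by
    classical
    clear ht
    induction t using Finset.induction_on with
    | empty => exact ⟨1, one_pos, fun x hx => absurd hx (Finset.notMem_empty x)⟩
    | insert a s ha ih =>
      obtain ⟨m, hm0, hm⟩ := ih
      refine ⟨min m (εf a), lt_min hm0 (hεf a), fun x hx => ?_⟩
      rcases Finset.mem_insert.mp hx with rfl | hx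
      · exact min_le_right _ _
      · exact (min_le_left _ _).trans (hm x hx)
  refine ⟨m, hm0, fun ε hε hεm => ?_⟩
  have hfin : Module.finrank ℝ (E 2 × ℝ) = Module.finrank ℝ (E 3) := by
    simp
  let A : (E 2 × ℝ) ≃L[ℝ] E 3 := ContinuousLinearEquiv.ofFinrankEq hfin
  have hΨ : Continuous (fun q : NB f => tube f ε q.1) := by
    have h1 : Continuous (fun q : NB f => f q.1.1) :=
      hf.comp (continuous_fst.comp continuous_subtype_val)
    have h2 : Continuous (fun q : NB f => q.1.2) := continuous_snd.comp continuous_subtype_val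
    exact h1.add (h2.const_smul ε)
  refine immersion_manifold hΨ fun p => ?_
  have hp : p.1.1 ∈ ⋃ x0 ∈ t, (chartAt (E 2) x0).source ∩ (chartAt (E 2) x0) ⁻¹' (V x0) := by
    rw [ht]; exact mem_univ _
  simp only [mem_iUnion] at hp
  obtain ⟨x0, hx0t, hps, hpV⟩ := hp
  set n : E 4 := p.1.2 with hn
  set J := fderiv ℝ (rd f x0) (chartAt (E 2) x0 p.1.1) with hJ
  set b : E 4 := -crs (J ea) (J eb) n with hb
  have hmem := (mem_NB_iff hI hps p.1.2).mp p.2
  have hJinj : Function.Injective J := (hI x0).2 _ (hVt x0 hpV)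
  have hD : 0 < DD (rd f x0) b n (chartAt (E 2) x0 p.1.1) := crs_pos hJinj hmem.1 hmem.2
  let e := pchart hI x0 (hV x0) (hVt x0) b n p
  have hsrc : p ∈ e.source := by
    refine ⟨hps, ⟨hpV, hD⟩, ?_⟩
    change 0 < ⟪n, n⟫_ℝ
    rw [real_inner_self_eq_norm_sq, show ‖n‖ = 1 from hmem.1]; norm_num
  have hgV : ContDiffOn ℝ ∞ (rd f x0) (V x0) := (hI x0).1.mono (hVt x0)
  have heq : ∀ q ∈ e.target, tube f ε (e.symm q).1 = FF (rd f x0) ε b n q := by
    intro q hq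
    rw [pchart_symm hI x0 (hV x0) (hVt x0) b n p hq]
    rfl
  have hεl : ε * C x0 < l x0 ^ 2 := hεC x0 ε hε (hεm.trans_le (hm x0 hx0t))
  refine ⟨e.transHomeomorph A.toHomeomorph, hsrc, ?_, ?_⟩
  all_goals
    have heq' : ∀ q ∈ (e.transHomeomorph A.toHomeomorph).target,
        ((fun q : NB f => tube f ε q.1) ∘ (e.transHomeomorph A.toHomeomorph).symm) q =
        FF (rd f x0) ε b n (A.symm q) := fun q hq => heq (A.symm q) hq
  · intro q hq
    have hq' : (A.symm q).1 ∈ V x0 ∧ 0 < DD (rd f x0) b n (A.symm q).1 := hq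
    have h1 : ContDiffAt ℝ ∞ (fun q => FF (rd f x0) ε b n (A.symm q)) q :=
      (FF_smooth (hV x0) hgV ε hq'.1 hq'.2).comp q A.symm.contDiff.contDiffAt
    refine (h1.congr_of_eventuallyEq ?_).contDiffWithinAt
    filter_upwards [(e.transHomeomorph A.toHomeomorph).open_target.mem_nhds hq] with y hy
    exact heq' y hy
  · intro q hq
    have hq' : (A.symm q).1 ∈ V x0 ∧ 0 < DD (rd f x0) b n (A.symm q).1 := hq
    have h0 : ((fun q : NB f => tube f ε q.1) ∘ (e.transHomeomorph A.toHomeomorph).symm) =ᶠ[𝓝 q]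
        (fun q => FF (rd f x0) ε b n (A.symm q)) := by
      filter_upwards [(e.transHomeomorph A.toHomeomorph).open_target.mem_nhds hq] with y hy
      exact heq' y hy
    rw [h0.fderiv_eq]
    have hdF : HasFDerivAt (FF (rd f x0) ε b n) (fderiv ℝ (FF (rd f x0) ε b n) (A.symm q)) (A.symm q) :=
      ((FF_smooth (hV x0) hgV ε hq'.1 hq'.2).differentiableAt (by simp)).hasFDerivAt
    have h2 : HasFDerivAt (fun q => FF (rd f x0) ε b n (A.symm q))
        ((fderiv ℝ (FF (rd f x0) ε b n) (A.symm q)).comp (A.symm : E 3 →L[ℝ] E 2 × ℝ)) q :=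
      hdF.comp q A.symm.hasFDerivAt
    rw [h2.fderiv]
    exact (FF_inj (hV x0) hgV (hl0 x0) (hl x0) (hC x0) hε hεl hq'.1 hq'.2).comp A.symm.injective

end Pool.Agent.TH369.J167
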