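import Pool.Agent.TH369.J169

set_option autoImplicit false
set_option linter.unusedSectionVars false
namespace Pool.Agent.TH369.J167
open Set Topology Filter Pool.Agent.TH619
open scoped InnerProductSpace Manifold ContDiff

/-- the triple cross product in four-space -/
noncomputable def crs (u v w : E 4) : E 4 :=
  !₂[-(u 1 * (v 2 * w 3 - v 3 * w 2) - u 2 * (v 1 * w 3 - v 3 * w 1) + u 3 * (v 1 * w 2 - v 2 * w 1)),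
     (u 0 * (v 2 * w 3 - v 3 * w 2) - u 2 * (v 0 * w 3 - v 3 * w 0) + u 3 * (v 0 * w 2 - v 2 * w 0)),
     -(u 0 * (v 1 * w 3 - v 3 * w 1) - u 1 * (v 0 * w 3 - v 3 * w 0) + u 3 * (v 0 * w 1 - v 1 * w 0)),
     (u 0 * (v 1 * w 2 - v 2 * w 1) - u 1 * (v 0 * w 2 - v 2 * w 0) + u 2 * (v 0 * w 1 - v 1 * w 0))]

theorem inner_four (a b : E 4) : ⟪a, b⟫_ℝ = a 0 * b 0 + a 1 * b 1 + a 2 * b 2 + a 3 * b 3 := by
  rw [PiLp.inner_apply, Fin.sum_univ_four]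
  simp only [RCLike.inner_apply, conj_trivial]
  ring

theorem crs_0 (u v w : E 4) : crs u v w 0 =
  -(u 1 * (v 2 * w 3 - v 3 * w 2) - u 2 * (v 1 * w 3 - v 3 * w 1) + u 3 * (v 1 * w 2 - v 2 * w 1)) := rfl
theorem crs_1 (u v w : E 4) : crs u v w 1 =
  (u 0 * (v 2 * w 3 - v 3 * w 2) - u 2 * (v 0 * w 3 - v 3 * w 0) + u 3 * (v 0 * w 2 - v 2 * w 0)) := rfl
theorem crs_2 (u v w : E 4) : crs u v w 2 =
  -(u 0 * (v 1 * w 3 - v 3 * w 1) - u 1 * (v 0 * w 3 - v 3 * w 0) + u 3 * (v 0 * w 1 - v 1 * w 0)) := rfl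
theorem crs_3 (u v w : E 4) : crs u v w 3 =
  (u 0 * (v 1 * w 2 - v 2 * w 1) - u 1 * (v 0 * w 2 - v 2 * w 0) + u 2 * (v 0 * w 1 - v 1 * w 0)) := rfl

theorem inner_crs_1 (u v w : E 4) : ⟪crs u v w, u⟫_ℝ = 0 := by
  rw [inner_four, crs_0, crs_1, crs_2, crs_3]; ring

theorem inner_crs_2 (u v w : E 4) : ⟪crs u v w, v⟫_ℝ = 0 := by
  rw [inner_four, crs_0, crs_1, crs_2, crs_3]; ring

theorem inner_crs_3 (u v w : E 4) : ⟪crs u v w, w⟫_ℝ = 0 := by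
  rw [inner_four, crs_0, crs_1, crs_2, crs_3]; ring

/-- the determinant does not change under a column operation -/
theorem inner_crs_shift (u v b n : E 4) (s : ℝ) :
    ⟪crs u v (b - s • n), n⟫_ℝ = ⟪crs u v b, n⟫_ℝ := by
  simp only [inner_four, crs_0, crs_1, crs_2, crs_3, PiLp.sub_apply, PiLp.smul_apply, smul_eq_mul]
  ring

theorem inner_crs_swap (u v b n : E 4) : ⟪crs u v b, n⟫_ℝ = -⟪crs u v n, b⟫_ℝ := by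
  simp only [inner_four, crs_0, crs_1, crs_2, crs_3]
  ring

theorem crs_gram (u v w : E 4) : ⟪crs u v w, crs u v w⟫_ℝ =
    ⟪u, u⟫_ℝ * (⟪v, v⟫_ℝ * ⟪w, w⟫_ℝ - ⟪v, w⟫_ℝ ^ 2)
    - ⟪u, v⟫_ℝ * (⟪u, v⟫_ℝ * ⟪w, w⟫_ℝ - ⟪v, w⟫_ℝ * ⟪u, w⟫_ℝ)
    + ⟪u, w⟫_ℝ * (⟪u, v⟫_ℝ * ⟪v, w⟫_ℝ - ⟪v, v⟫_ℝ * ⟪u, w⟫_ℝ) := by
  simp only [inner_four, crs_0, crs_1, crs_2, crs_3]
  ring

/-- a vector orthogonal to `u, v, w` is a multiple of the cross product -/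
theorem eq_of_orth {u v w n y : E 4} (hu : ⟪y, u⟫_ℝ = 0) (hv : ⟪y, v⟫_ℝ = 0) (hw : ⟪y, w⟫_ℝ = 0)
    (hy : ⟪y, n⟫_ℝ = 0) (hD : ⟪crs u v w, n⟫_ℝ ≠ 0) : y = 0 := by
  have key : ∀ i, ⟪crs u v w, n⟫_ℝ * y i = 0 := by
    rw [inner_four] at hu hv hw hy
    intro i
    fin_cases i
    · change ⟪crs u v w, n⟫_ℝ * y 0 = 0
      rw [inner_four, crs_0, crs_1, crs_2, crs_3]
      linear_combination (v 1 * (w 2 * n 3 - w 3 * n 2) - v 2 * (w 1 * n 3 - w 3 * n 1) + v 3 * (w 1 * n 2 - w 2 * n 1)) * hu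
        - (u 1 * (w 2 * n 3 - w 3 * n 2) - u 2 * (w 1 * n 3 - w 3 * n 1) + u 3 * (w 1 * n 2 - w 2 * n 1)) * hv
        + (u 1 * (v 2 * n 3 - v 3 * n 2) - u 2 * (v 1 * n 3 - v 3 * n 1) + u 3 * (v 1 * n 2 - v 2 * n 1)) * hw
        - (u 1 * (v 2 * w 3 - v 3 * w 2) - u 2 * (v 1 * w 3 - v 3 * w 1) + u 3 * (v 1 * w 2 - v 2 * w 1)) * hy
    · change ⟪crs u v w, n⟫_ℝ * y 1 = 0
      rw [inner_four, crs_0, crs_1, crs_2, crs_3]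
      linear_combination -(v 0 * (w 2 * n 3 - w 3 * n 2) - v 2 * (w 0 * n 3 - w 3 * n 0) + v 3 * (w 0 * n 2 - w 2 * n 0)) * hu
        + (u 0 * (w 2 * n 3 - w 3 * n 2) - u 2 * (w 0 * n 3 - w 3 * n 0) + u 3 * (w 0 * n 2 - w 2 * n 0)) * hv
        - (u 0 * (v 2 * n 3 - v 3 * n 2) - u 2 * (v 0 * n 3 - v 3 * n 0) + u 3 * (v 0 * n 2 - v 2 * n 0)) * hw
        + (u 0 * (v 2 * w 3 - v 3 * w 2) - u 2 * (v 0 * w 3 - v 3 * w 0) + u 3 * (v 0 * w 2 - v 2 * w 0)) * hy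
    · change ⟪crs u v w, n⟫_ℝ * y 2 = 0
      rw [inner_four, crs_0, crs_1, crs_2, crs_3]
      linear_combination (v 0 * (w 1 * n 3 - w 3 * n 1) - v 1 * (w 0 * n 3 - w 3 * n 0) + v 3 * (w 0 * n 1 - w 1 * n 0)) * hu
        - (u 0 * (w 1 * n 3 - w 3 * n 1) - u 1 * (w 0 * n 3 - w 3 * n 0) + u 3 * (w 0 * n 1 - w 1 * n 0)) * hv
        + (u 0 * (v 1 * n 3 - v 3 * n 1) - u 1 * (v 0 * n 3 - v 3 * n 0) + u 3 * (v 0 * n 1 - v 1 * n 0)) * hw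
        - (u 0 * (v 1 * w 3 - v 3 * w 1) - u 1 * (v 0 * w 3 - v 3 * w 0) + u 3 * (v 0 * w 1 - v 1 * w 0)) * hy
    · change ⟪crs u v w, n⟫_ℝ * y 3 = 0
      rw [inner_four, crs_0, crs_1, crs_2, crs_3]
      linear_combination -(v 0 * (w 1 * n 2 - w 2 * n 1) - v 1 * (w 0 * n 2 - w 2 * n 0) + v 2 * (w 0 * n 1 - w 1 * n 0)) * hu
        + (u 0 * (w 1 * n 2 - w 2 * n 1) - u 1 * (w 0 * n 2 - w 2 * n 0) + u 2 * (w 0 * n 1 - w 1 * n 0)) * hv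
        - (u 0 * (v 1 * n 2 - v 2 * n 1) - u 1 * (v 0 * n 2 - v 2 * n 0) + u 2 * (v 0 * n 1 - v 1 * n 0)) * hw
        + (u 0 * (v 1 * w 2 - v 2 * w 1) - u 1 * (v 0 * w 2 - v 2 * w 0) + u 2 * (v 0 * w 1 - v 1 * w 0)) * hy
  ext i
  exact (mul_eq_zero.mp (key i)).resolve_left hD

end Pool.Agent.TH369.J167
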