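import Pool.Agent.TH619.Base

set_option autoImplicit false
set_option linter.unusedSectionVars false
namespace Pool.Agent.TH369.J167
open Set Topology Filter Pool.Agent.TH619
open scoped InnerProductSpace Manifold ContDiff

section gen

variable {V V' W : Type} [NormedAddCommGroup V] [NormedSpace ℝ V] [FiniteDimensional ℝ V]
  [NormedAddCommGroup V'] [NormedSpace ℝ V']
  [NormedAddCommGroup W] [NormedSpace ℝ W] [FiniteDimensional ℝ W]

/-- a continuous change of parameter between a smooth map and an immersion is smooth -/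
theorem trans_smooth {g1 : V → W} {q1 : V} (hg1 : ContDiffAt ℝ ∞ g1 q1)
    (hJ : Function.Injective (fderiv ℝ g1 q1)) {T : V' → V} {F : V' → W} {q : V'}
    (hT : ContinuousAt T q) (hTq : T q = q1) (hF : ContDiffAt ℝ ∞ F q)
    (he : F =ᶠ[𝓝 q] g1 ∘ T) : ContDiffAt ℝ ∞ T q := by
  have : CompleteSpace V := FiniteDimensional.complete ℝ V
  obtain ⟨Λ0, hΛ0⟩ := LinearMap.exists_leftInverse_of_injective (fderiv ℝ g1 q1).toLinearMap
    (LinearMap.ker_eq_bot.mpr hJ)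
  let Λ : W →L[ℝ] V := LinearMap.toContinuousLinearMap Λ0
  have hΛ : ∀ v, Λ (fderiv ℝ g1 q1 v) = v := fun v => LinearMap.congr_fun hΛ0 v
  have hh : ContDiffAt ℝ ∞ (fun p => Λ (g1 p)) q1 := Λ.contDiff.contDiffAt.comp q1 hg1
  have hd1 : HasFDerivAt g1 (fderiv ℝ g1 q1) q1 := (hg1.differentiableAt (by simp)).hasFDerivAt
  have hh' : HasFDerivAt (fun p => Λ (g1 p))
      ((ContinuousLinearEquiv.refl ℝ V : V ≃L[ℝ] V) : V →L[ℝ] V) q1 := by
    have h1 := Λ.hasFDerivAt.comp q1 hd1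
    have h2 : Λ.comp (fderiv ℝ g1 q1) = ((ContinuousLinearEquiv.refl ℝ V : V ≃L[ℝ] V) : V →L[ℝ] V) := by
      ext v; exact hΛ v
    rw [h2] at h1
    exact h1
  have hn : (∞ : WithTop ℕ∞) ≠ 0 := by simp
  have hL := hh.to_localInverse hh' hn
  have hinv : ∀ᶠ p in 𝓝 q1, hh.localInverse hh' hn (Λ (g1 p)) = p :=
    (hh.hasStrictFDerivAt' hh' hn).eventually_left_inverse
  have hFq : F q = g1 q1 := by rw [← hTq]; exact he.eq_of_nhds
  have hcomp : ContDiffAt ℝ ∞ (fun p => hh.localInverse hh' hn (Λ (F p))) q := by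
    have h1 : ContDiffAt ℝ ∞ (fun p => Λ (F p)) q := Λ.contDiff.contDiffAt.comp q hF
    have hL' : ContDiffAt ℝ ∞ (hh.localInverse hh' hn) (Λ (F q)) := by rw [hFq]; exact hL
    exact hL'.comp q h1
  refine hcomp.congr_of_eventuallyEq ?_
  have h1 : ∀ᶠ p in 𝓝 q, hh.localInverse hh' hn (Λ (g1 (T p))) = T p := by
    have : Tendsto T (𝓝 q) (𝓝 q1) := by rw [← hTq]; exact hT
    exact this.eventually hinv
  filter_upwards [h1, he] with p hp1 hp2
  rw [hp2, ← hp1]
  rfl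

end gen

/-- a space with local parametrisations that are immersions after a fixed continuous map is a
smooth manifold -/
theorem immersion_manifold {N : Type} [TopologicalSpace N] {Ψ : N → E 4} (hΨ : Continuous Ψ)
    (h : ∀ p : N, ∃ e : OpenPartialHomeomorph N (E 3), p ∈ e.source ∧
      ContDiffOn ℝ ∞ (Ψ ∘ e.symm) e.target ∧
      ∀ q ∈ e.target, Function.Injective (fderiv ℝ (Ψ ∘ e.symm) q)) :
    ∃ (_ : ChartedSpace (E 3) N) (_ : IsManifold 𝓘(ℝ, E 3) ∞ N),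
      ContMDiff 𝓘(ℝ, E 3) 𝓘(ℝ, E 4) ∞ Ψ ∧
      ∀ q : N, Function.Injective (mfderiv 𝓘(ℝ, E 3) 𝓘(ℝ, E 4) Ψ q) := by
  choose ch hch hsm hin using h
  let cs : ChartedSpace (E 3) N :=
    { atlas := {e | ContDiffOn ℝ ∞ (Ψ ∘ e.symm) e.target ∧
        ∀ q ∈ e.target, Function.Injective (fderiv ℝ (Ψ ∘ e.symm) q)}
      chartAt := ch
      mem_chart_source := hch
      chart_mem_atlas := fun p => ⟨hsm p, hin p⟩ }
  have hat : ∀ e : OpenPartialHomeomorph N (E 3), e ∈ atlas (E 3) N ↔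
      (ContDiffOn ℝ ∞ (Ψ ∘ e.symm) e.target ∧
        ∀ q ∈ e.target, Function.Injective (fderiv ℝ (Ψ ∘ e.symm) q)) := fun e => Iff.rfl
  have im : IsManifold 𝓘(ℝ, E 3) ∞ N := by
    apply isManifold_of_contDiffOn
    intro e e' he he'
    rw [hat] at he he'
    simp only [modelWithCornersSelf_coe, modelWithCornersSelf_coe_symm, Function.id_comp,
      Function.comp_id, Set.range_id, Set.inter_univ, Set.preimage_id]
    intro q hq
    have hq' : q ∈ e.target ∧ e.symm q ∈ e'.source := by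
      rw [OpenPartialHomeomorph.trans_source] at hq
      exact hq
    have hT : ContinuousAt (e.symm ≫ₕ e') q := (e.symm ≫ₕ e').continuousAt hq
    have hTt : (e.symm ≫ₕ e') q ∈ e'.target := e'.map_source hq'.2
    refine (trans_smooth (g1 := Ψ ∘ e'.symm) (q1 := (e.symm ≫ₕ e') q) (F := Ψ ∘ e.symm)
      (he'.1.contDiffAt (e'.open_target.mem_nhds hTt)) (he'.2 _ hTt) hT rfl
      (he.1.contDiffAt (e.open_target.mem_nhds hq'.1)) ?_).contDiffWithinAt
    filter_upwards [(e.symm ≫ₕ e').open_source.mem_nhds hq] with p hp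
    have hp' : p ∈ e.target ∧ e.symm p ∈ e'.source := by
      rw [OpenPartialHomeomorph.trans_source] at hp
      exact hp
    change Ψ (e.symm p) = Ψ (e'.symm (e' (e.symm p)))
    rw [e'.left_inv hp'.2]
  have hmd : ContMDiff 𝓘(ℝ, E 3) 𝓘(ℝ, E 4) ∞ Ψ := by
    intro p
    rw [contMDiffAt_iff]
    refine ⟨hΨ.continuousAt, ?_⟩
    have h1 : ContDiffAt ℝ ∞ (Ψ ∘ (ch p).symm) (ch p p) :=
      (hsm p).contDiffAt ((ch p).open_target.mem_nhds ((ch p).map_source (hch p)))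
    have h2 : ContDiffWithinAt ℝ ∞ (Ψ ∘ (ch p).symm) (Set.range (𝓘(ℝ, E 3) : E 3 → E 3)) (ch p p) :=
      h1.contDiffWithinAt
    exact h2
  refine ⟨cs, im, hmd, fun p => ?_⟩
  have hmda : MDifferentiableAt 𝓘(ℝ, E 3) 𝓘(ℝ, E 4) Ψ p := (hmd p).mdifferentiableAt (by simp)
  have hq : ch p p ∈ (ch p).target := (ch p).map_source (hch p)
  have h3 := hin p (ch p p) hq
  have h4 : fderivWithin ℝ (writtenInExtChartAt 𝓘(ℝ, E 3) 𝓘(ℝ, E 4) p Ψ)
      (Set.range (𝓘(ℝ, E 3) : E 3 → E 3)) (extChartAt 𝓘(ℝ, E 3) p p) =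
      fderiv ℝ (Ψ ∘ (ch p).symm) (ch p p) := by
    have e1 : Set.range (𝓘(ℝ, E 3) : E 3 → E 3) = Set.univ := by simp
    rw [e1, fderivWithin_univ]
    rfl
  have h5 := hmda.mfderiv.trans h4
  intro a b hab
  apply h3
  exact (congrArg (fun L : E 3 →L[ℝ] E 4 => L a) h5).symm.trans
    (hab.trans (congrArg (fun L : E 3 →L[ℝ] E 4 => L b) h5))

end Pool.Agent.TH369.J167
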