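import Pool.Agent.TH369.J167a
import Pool.Agent.TH369.J167b

set_option autoImplicit false
set_option linter.unusedSectionVars false
namespace Pool.Agent.TH369.J167
open Set Topology Filter Pool.Agent.TH619
open scoped InnerProductSpace Manifold ContDiff

theorem crs_contDiffAt {P : Type} [NormedAddCommGroup P] [NormedSpace ℝ P] {a b c : P → E 4} {x : P}
    (ha : ContDiffAt ℝ ∞ a x) (hb : ContDiffAt ℝ ∞ b x) (hc : ContDiffAt ℝ ∞ c x) :
    ContDiffAt ℝ ∞ (fun p => crs (a p) (b p) (c p)) x := by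
  have ha' := contDiffAt_euclidean.mp ha
  have hb' := contDiffAt_euclidean.mp hb
  have hc' := contDiffAt_euclidean.mp hc
  have a0 := ha' 0
  have a1 := ha' 1
  have a2 := ha' 2
  have a3 := ha' 3
  have b0 := hb' 0
  have b1 := hb' 1
  have b2 := hb' 2
  have b3 := hb' 3
  have c0 := hc' 0
  have c1 := hc' 1
  have c2 := hc' 2
  have c3 := hc' 3
  rw [contDiffAt_euclidean]
  intro i
  fin_cases i
  · exact (((a1.mul ((b2.mul c3).sub (b3.mul c2))).sub (a2.mul ((b1.mul c3).sub (b3.mul c1)))).add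
      (a3.mul ((b1.mul c2).sub (b2.mul c1)))).neg
  · exact (((a0.mul ((b2.mul c3).sub (b3.mul c2))).sub (a2.mul ((b0.mul c3).sub (b3.mul c0)))).add
      (a3.mul ((b0.mul c2).sub (b2.mul c0))))
  · exact (((a0.mul ((b1.mul c3).sub (b3.mul c1))).sub (a1.mul ((b0.mul c3).sub (b3.mul c0)))).add
      (a3.mul ((b0.mul c1).sub (b1.mul c0)))).neg
  · exact (((a0.mul ((b1.mul c2).sub (b2.mul c1))).sub (a1.mul ((b0.mul c2).sub (b2.mul c0)))).add
      (a2.mul ((b0.mul c1).sub (b1.mul c0))))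

/-- the two basis vectors of the plane -/
noncomputable def ea : E 2 := EuclideanSpace.single 0 1
/-- the two basis vectors of the plane -/
noncomputable def eb : E 2 := EuclideanSpace.single 1 1

theorem dec2 (v : E 2) : v = v 0 • ea + v 1 • eb := by
  ext i
  fin_cases i
  · simp [ea, eb]
  · simp [ea, eb]

/-- an (unnormalised) normal vector -/
noncomputable def XX (g : E 2 → E 4) (b n : E 4) (p : E 2 × ℝ) : E 4 :=
  crs (fderiv ℝ g p.1 ea) (fderiv ℝ g p.1 eb) (b - p.2 • n)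

/-- the unit normal -/
noncomputable def nu (g : E 2 → E 4) (b n : E 4) (p : E 2 × ℝ) : E 4 :=
  ‖XX g b n p‖⁻¹ • XX g b n p

/-- the tube in local coordinates -/
noncomputable def FF (g : E 2 → E 4) (ε : ℝ) (b n : E 4) (p : E 2 × ℝ) : E 4 :=
  g p.1 + ε • nu g b n p

/-- the determinant -/
noncomputable def DD (g : E 2 → E 4) (b n : E 4) (q : E 2) : ℝ :=
  ⟪crs (fderiv ℝ g q ea) (fderiv ℝ g q eb) b, n⟫_ℝ

theorem inner_XX (g : E 2 → E 4) (b n : E 4) (p : E 2 × ℝ) : ⟪XX g b n p, n⟫_ℝ = DD g b n p.1 :=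
  inner_crs_shift _ _ _ _ _

theorem XX_ne {g : E 2 → E 4} {b n : E 4} {p : E 2 × ℝ} (hD : 0 < DD g b n p.1) :
    XX g b n p ≠ 0 := by
  intro h
  have := inner_XX g b n p
  rw [h, inner_zero_left] at this
  linarith

theorem norm_nu {g : E 2 → E 4} {b n : E 4} {p : E 2 × ℝ} (hD : 0 < DD g b n p.1) :
    ‖nu g b n p‖ = 1 := by
  rw [nu, norm_smul, norm_inv, norm_norm, inv_mul_cancel₀ (norm_ne_zero_iff.mpr (XX_ne hD))]

theorem nu_orth (g : E 2 → E 4) (b n : E 4) (p : E 2 × ℝ) (v : E 2) :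
    ⟪nu g b n p, fderiv ℝ g p.1 v⟫_ℝ = 0 := by
  have h1 : ⟪XX g b n p, fderiv ℝ g p.1 ea⟫_ℝ = 0 := inner_crs_1 _ _ _
  have h2 : ⟪XX g b n p, fderiv ℝ g p.1 eb⟫_ℝ = 0 := inner_crs_2 _ _ _
  rw [nu, inner_smul_left]
  conv_lhs => rw [dec2 v]
  rw [map_add, map_smul, map_smul, inner_add_right, inner_smul_right, inner_smul_right, h1, h2]
  simp

theorem nu_orth3 (g : E 2 → E 4) (b n : E 4) (p : E 2 × ℝ) :
    ⟪nu g b n p, b - p.2 • n⟫_ℝ = 0 := by
  have h3 : ⟪XX g b n p, b - p.2 • n⟫_ℝ = 0 := inner_crs_3 _ _ _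
  rw [nu, inner_smul_left, h3, mul_zero]

theorem nu_pos {g : E 2 → E 4} {b n : E 4} {p : E 2 × ℝ} (hD : 0 < DD g b n p.1) :
    0 < ⟪nu g b n p, n⟫_ℝ := by
  rw [nu, inner_smul_left, inner_XX]
  have := norm_pos_iff.mpr (XX_ne hD)
  simp only [conj_trivial]
  positivity

/-- a unit normal with positive scalar product with `n` is given by the formula -/
theorem eq_nu {g : E 2 → E 4} {b n ν : E 4} {q : E 2} (hD : 0 < DD g b n q)
    (hν : ‖ν‖ = 1) (ho : ∀ v, ⟪ν, fderiv ℝ g q v⟫_ℝ = 0) (hn : 0 < ⟪ν, n⟫_ℝ) :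
    nu g b n (q, ⟪ν, b⟫_ℝ / ⟪ν, n⟫_ℝ) = ν := by
  set s := ⟪ν, b⟫_ℝ / ⟪ν, n⟫_ℝ with hs
  set X := XX g b n (q, s) with hX
  have hXn : ⟪X, n⟫_ℝ = DD g b n q := inner_XX g b n (q, s)
  have hXne : X ≠ 0 := XX_ne (p := (q, s)) hD
  have hXp : 0 < ‖X‖ := norm_pos_iff.mpr hXne
  have h3 : ⟪ν, b - s • n⟫_ℝ = 0 := by
    rw [inner_sub_right, inner_smul_right, hs, div_mul_cancel₀ _ hn.ne', sub_self]
  have key : DD g b n q • ν - ⟪ν, n⟫_ℝ • X = 0 := by
    apply eq_of_orth (u := fderiv ℝ g q ea) (v := fderiv ℝ g q eb) (w := b - s • n) (n := n)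
    · rw [inner_sub_left, inner_smul_left, inner_smul_left, ho ea]
      have : ⟪X, fderiv ℝ g q ea⟫_ℝ = 0 := inner_crs_1 _ _ _
      rw [this]; simp
    · rw [inner_sub_left, inner_smul_left, inner_smul_left, ho eb]
      have : ⟪X, fderiv ℝ g q eb⟫_ℝ = 0 := inner_crs_2 _ _ _
      rw [this]; simp
    · rw [inner_sub_left, inner_smul_left, inner_smul_left, h3]
      have : ⟪X, b - s • n⟫_ℝ = 0 := inner_crs_3 _ _ _
      rw [this]; simp
    · rw [inner_sub_left, inner_smul_left, inner_smul_left, hXn]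
      simp only [conj_trivial]; ring
    · have : ⟪crs (fderiv ℝ g q ea) (fderiv ℝ g q eb) (b - s • n), n⟫_ℝ = DD g b n q := hXn
      rw [this]; exact hD.ne'
  have h4 : DD g b n q • ν = ⟪ν, n⟫_ℝ • X := sub_eq_zero.mp key
  have h5 : DD g b n q = ⟪ν, n⟫_ℝ * ‖X‖ := by
    have := congrArg norm h4
    rwa [norm_smul, norm_smul, hν, mul_one, Real.norm_of_nonneg hD.le,
      Real.norm_of_nonneg hn.le] at this
  have h6 : ⟪ν, n⟫_ℝ • (‖X‖ • ν) = ⟪ν, n⟫_ℝ • X := by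
    rw [smul_smul, ← h5]; exact h4
  have h7 : ‖X‖ • ν = X := by
    have := smul_right_injective (E 4) hn.ne' h6
    exact this
  rw [nu, ← hX]
  conv_lhs => rw [← h7]
  rw [norm_smul, norm_norm, hν, mul_one, smul_smul, inv_mul_cancel₀ hXp.ne', one_smul]

section core

variable {g : E 2 → E 4} {V : Set (E 2)}

theorem XX_smooth (hV : IsOpen V) (hg : ContDiffOn ℝ ∞ g V) (b n : E 4) {p : E 2 × ℝ}
    (hp : p.1 ∈ V) : ContDiffAt ℝ ∞ (XX g b n) p := by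
  have hg1 : ContDiffAt ℝ ∞ g p.1 := hg.contDiffAt (hV.mem_nhds hp)
  have hJ : ContDiffAt ℝ ∞ (fderiv ℝ g) p.1 := hg1.fderiv_right (by simp)
  have hJ1 : ContDiffAt ℝ ∞ (fun p : E 2 × ℝ => fderiv ℝ g p.1) p := hJ.comp p contDiffAt_fst
  exact crs_contDiffAt (hJ1.clm_apply contDiffAt_const) (hJ1.clm_apply contDiffAt_const)
    (contDiffAt_const.sub (contDiffAt_snd.smul contDiffAt_const))

theorem nu_smooth (hV : IsOpen V) (hg : ContDiffOn ℝ ∞ g V) {b n : E 4} {p : E 2 × ℝ}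
    (hp : p.1 ∈ V) (hD : 0 < DD g b n p.1) : ContDiffAt ℝ ∞ (nu g b n) p := by
  have h1 := XX_smooth hV hg b n hp
  have h2 := XX_ne hD
  exact ((h1.norm ℝ h2).inv (norm_ne_zero_iff.mpr h2)).smul h1

theorem FF_smooth (hV : IsOpen V) (hg : ContDiffOn ℝ ∞ g V) {b n : E 4} (ε : ℝ) {p : E 2 × ℝ}
    (hp : p.1 ∈ V) (hD : 0 < DD g b n p.1) : ContDiffAt ℝ ∞ (FF g ε b n) p := by
  have hg1 : ContDiffAt ℝ ∞ g p.1 := hg.contDiffAt (hV.mem_nhds hp)
  exact (hg1.comp p contDiffAt_fst).add ((nu_smooth hV hg hp hD).const_smul ε)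

theorem DD_cont (hV : IsOpen V) (hg : ContDiffOn ℝ ∞ g V) (b n : E 4) :
    ContinuousOn (DD g b n) V := by
  intro q hq
  have h1 := (XX_smooth hV hg b n (p := (q, 0)) hq).continuousAt
  have h2 : ContinuousAt (fun q : E 2 => XX g b n (q, 0)) q :=
    ContinuousAt.comp (f := fun q : E 2 => ((q, (0 : ℝ)) : E 2 × ℝ)) h1 (by fun_prop)
  have h3 : ContinuousAt (fun q : E 2 => ⟪XX g b n (q, 0), n⟫_ℝ) q :=
    h2.inner continuousAt_const
  have h4 : (fun q : E 2 => ⟪XX g b n (q, 0), n⟫_ℝ) = DD g b n := by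
    funext q; exact inner_XX g b n (q, 0)
  rw [h4] at h3
  exact h3.continuousWithinAt

theorem FF_inj (hV : IsOpen V) (hg : ContDiffOn ℝ ∞ g V) {l C ε : ℝ} (hl0 : 0 < l)
    (hl : ∀ q ∈ V, ∀ v, l * ‖v‖ ≤ ‖fderiv ℝ g q v‖)
    (hC : ∀ q ∈ V, ∀ v, ‖fderiv ℝ (fderiv ℝ g) q v v‖ ≤ C * ‖v‖ ^ 2)
    (hε : 0 < ε) (hεC : ε * C < l ^ 2) {b n : E 4} {p : E 2 × ℝ}
    (hp : p.1 ∈ V) (hD : 0 < DD g b n p.1) :
    Function.Injective (fderiv ℝ (FF g ε b n) p) := by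
  have hg1 : ContDiffAt ℝ ∞ g p.1 := hg.contDiffAt (hV.mem_nhds hp)
  have hJ : ContDiffAt ℝ ∞ (fderiv ℝ g) p.1 := hg1.fderiv_right (by simp)
  have dg : HasFDerivAt g (fderiv ℝ g p.1) p.1 := (hg1.differentiableAt (by simp)).hasFDerivAt
  have dJ : HasFDerivAt (fderiv ℝ g) (fderiv ℝ (fderiv ℝ g) p.1) p.1 :=
    (hJ.differentiableAt (by simp)).hasFDerivAt
  have dnu : HasFDerivAt (nu g b n) (fderiv ℝ (nu g b n) p) p :=
    ((nu_smooth hV hg hp hD).differentiableAt (by simp)).hasFDerivAt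
  set N' := fderiv ℝ (nu g b n) p with hN'
  have dF : HasFDerivAt (FF g ε b n)
      ((fderiv ℝ g p.1).comp (ContinuousLinearMap.fst ℝ (E 2) ℝ) + ε • N') p :=
    (dg.comp p hasFDerivAt_fst).add (dnu.const_smul ε)
  rw [dF.fderiv, injective_iff_map_eq_zero]
  rintro ⟨v, σ⟩ hw
  have hw' : fderiv ℝ g p.1 v + ε • N' (v, σ) = 0 := hw
  -- first orthogonality relation, differentiated
  have k1 : ⟪nu g b n p, fderiv ℝ (fderiv ℝ g) p.1 v v⟫_ℝ + ⟪N' (v, σ), fderiv ℝ g p.1 v⟫_ℝ = 0 := by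
    have d1 : HasFDerivAt (fun p' : E 2 × ℝ => fderiv ℝ g p'.1 v)
        (((ContinuousLinearMap.apply ℝ (E 4) v).comp (fderiv ℝ (fderiv ℝ g) p.1)).comp
          (ContinuousLinearMap.fst ℝ (E 2) ℝ)) p :=
      HasFDerivAt.comp p (g := fun q => fderiv ℝ g q v) (f := Prod.fst)
        (HasFDerivAt.comp p.1 (ContinuousLinearMap.apply ℝ (E 4) v).hasFDerivAt dJ) hasFDerivAt_fst
    have d2 := dnu.inner ℝ d1
    have e0 : (fun t : E 2 × ℝ => ⟪nu g b n t, fderiv ℝ g t.1 v⟫_ℝ) = fun _ => 0 := by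
      funext t; exact nu_orth g b n t v
    rw [e0] at d2
    have d3 := d2.unique (hasFDerivAt_const (0 : ℝ) p)
    have d4 := congrArg (fun L : E 2 × ℝ →L[ℝ] ℝ => L (v, σ)) d3
    simpa using d4
  have k2 : ‖fderiv ℝ g p.1 v‖ ^ 2 = ε * ⟪nu g b n p, fderiv ℝ (fderiv ℝ g) p.1 v v⟫_ℝ := by
    have e1 : ⟪fderiv ℝ g p.1 v + ε • N' (v, σ), fderiv ℝ g p.1 v⟫_ℝ = 0 := by
      rw [hw', inner_zero_left]
    rw [inner_add_left, inner_smul_left, real_inner_self_eq_norm_sq] at e1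
    simp only [conj_trivial] at e1
    have e2 : ⟪N' (v, σ), fderiv ℝ g p.1 v⟫_ℝ = -⟪nu g b n p, fderiv ℝ (fderiv ℝ g) p.1 v v⟫_ℝ := by
      linarith
    rw [e2] at e1
    linarith
  have hv0 : v = 0 := by
    by_contra hne
    have hvp : 0 < ‖v‖ := norm_pos_iff.mpr hne
    have e1 := real_inner_le_norm (nu g b n p) (fderiv ℝ (fderiv ℝ g) p.1 v v)
    rw [norm_nu hD, one_mul] at e1
    have e2 := hC p.1 hp v
    have e3 : (l * ‖v‖) ^ 2 ≤ ‖fderiv ℝ g p.1 v‖ ^ 2 :=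
      pow_le_pow_left₀ (by positivity) (hl p.1 hp v) 2
    have e4 : ε * ⟪nu g b n p, fderiv ℝ (fderiv ℝ g) p.1 v v⟫_ℝ ≤ ε * (C * ‖v‖ ^ 2) :=
      mul_le_mul_of_nonneg_left (e1.trans e2) hε.le
    have e5 : 0 < ‖v‖ ^ 2 := by positivity
    nlinarith
  subst hv0
  have hN0 : N' (0, σ) = 0 := by
    rw [map_zero, zero_add] at hw'
    exact (smul_eq_zero.mp hw').resolve_left hε.ne'
  have k3 : σ * ⟪nu g b n p, n⟫_ℝ = 0 := by
    have d1 : HasFDerivAt (fun p' : E 2 × ℝ => b - p'.2 • n)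
        (-((ContinuousLinearMap.snd ℝ (E 2) ℝ).smulRight n)) p := by
      have := ((hasFDerivAt_snd (𝕜 := ℝ) (p := p)).smul_const n).const_sub b
      exact this
    have d2 := dnu.inner ℝ d1
    have e0 : (fun t : E 2 × ℝ => ⟪nu g b n t, b - t.2 • n⟫_ℝ) = fun _ => 0 := by
      funext t; exact nu_orth3 g b n t
    rw [e0] at d2
    have d3 := d2.unique (hasFDerivAt_const (0 : ℝ) p)
    have d4 := congrArg (fun L : E 2 × ℝ →L[ℝ] ℝ => L (0, σ)) d3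
    have d5 : ⟪nu g b n p, -(σ • n)⟫_ℝ + ⟪N' (0, σ), b - p.2 • n⟫_ℝ = 0 := by
      simpa using d4
    rw [hN0, inner_zero_left, add_zero, inner_neg_right, inner_smul_right] at d5
    linarith
  have hσ : σ = 0 := (mul_eq_zero.mp k3).resolve_right (nu_pos hD).ne'
  rw [hσ]; rfl

end core

end Pool.Agent.TH369.J167
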