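import Pool.Agent.TH369.J168

set_option autoImplicit false
set_option linter.unusedSectionVars false
namespace Pool.Agent.TH369.J169
open Set Topology Filter Pool.Agent.TH619
open scoped InnerProductSpace Manifold ContDiff

/-- length of the normal part of `z` at `q` -/
noncomputable def nl (g : E 2 → E 4) (z : E 4) (q : E 2) : ℝ :=
  Metric.infDist z (LinearMap.range (fderiv ℝ g q).toLinearMap : Set (E 4))

/-- statement of the lemma `local_max` (a separate job) -/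
def LocalMax : Prop := ∀ (g : E 2 → E 4) (U : Set (E 2)), IsOpen U → ContDiffOn ℝ ∞ g U →
    (∀ q ∈ U, Function.Injective (fderiv ℝ g q)) → ∀ q₀ ∈ U,
    ∃ ε₀ : ℝ, 0 < ε₀ ∧ ∃ r : ℝ, 0 < r ∧ Metric.ball q₀ r ⊆ U ∧
      ∀ ε : ℝ, 0 < ε → ε < ε₀ → ∀ z : E 4, ‖z‖ = 1 → ∀ q ∈ Metric.ball q₀ r,
        (IsLocalMax (fun p => ⟪z, g p⟫_ℝ + ε * nl g z p) q → IsLocalMax (fun p => ⟪z, g p⟫_ℝ) q) ∧
        (IsLocalMax (fun p => ⟪z, g p⟫_ℝ - ε * nl g z p) q → IsLocalMax (fun p => ⟪z, g p⟫_ℝ) q)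

section lin

variable {V W : Type} [NormedAddCommGroup V] [InnerProductSpace ℝ V] [FiniteDimensional ℝ V]
  [NormedAddCommGroup W] [InnerProductSpace ℝ W]

theorem lower_bound {J : V →L[ℝ] W} (hJ : Function.Injective J) :
    ∃ l : ℝ, 0 < l ∧ ∀ v, l * ‖v‖ ≤ ‖J v‖ := by
  obtain ⟨κ, hκ, hanti⟩ := J.toLinearMap.exists_antilipschitzWith
    (LinearMap.ker_eq_bot.mpr hJ)
  have hκ0 : (0 : ℝ) < κ := hκ
  refine ⟨1 / κ, by positivity, fun v => ?_⟩
  have h1 : ‖v‖ ≤ κ * ‖J v‖ := by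
    have := hanti.le_mul_dist v 0
    simpa using this
  rw [one_div, inv_mul_le_iff₀ hκ0]
  exact h1

/-- an immersion is locally injective, and bounded below at the base point -/
theorem locally_inj {g : V → W} {q : V} (hs : HasStrictFDerivAt g (fderiv ℝ g q) q)
    (hJ : Function.Injective (fderiv ℝ g q)) :
    ∃ l : ℝ, 0 < l ∧ ∀ᶠ p in 𝓝 (q, q), l * ‖p.1 - p.2‖ ≤ ‖g p.1 - g p.2‖ := by
  obtain ⟨l, hl, hb⟩ := lower_bound hJ
  refine ⟨l / 2, by positivity, ?_⟩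
  have h1 := hs.isLittleO.def (show (0 : ℝ) < l / 2 by positivity)
  filter_upwards [h1] with p hp
  have h2 := hb (p.1 - p.2)
  have h3 := norm_sub_norm_le (fderiv ℝ g q (p.1 - p.2)) (g p.1 - g p.2)
  have h4 := norm_sub_rev (fderiv ℝ g q (p.1 - p.2)) (g p.1 - g p.2)
  linarith

/-- two immersions that differ by a continuous change of parameter have the same tangent plane -/
theorem range_le {g0 g1 : V → W} {T : V → V} {q0 q1 : V} (hd0 : DifferentiableAt ℝ g0 q0)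
    (hs1 : HasStrictFDerivAt g1 (fderiv ℝ g1 q1) q1)
    (hJ1 : Function.Injective (fderiv ℝ g1 q1))
    (hT : ContinuousAt T q0) (hTq : T q0 = q1) (he : g0 =ᶠ[𝓝 q0] g1 ∘ T) :
    LinearMap.range (fderiv ℝ g0 q0).toLinearMap ≤ LinearMap.range (fderiv ℝ g1 q1).toLinearMap := by
  rintro _ ⟨v, rfl⟩
  change fderiv ℝ g0 q0 v ∈ LinearMap.range (fderiv ℝ g1 q1).toLinearMap
  obtain ⟨l, hl, hb⟩ := locally_inj hs1 hJ1
  have hclosed : IsClosed (LinearMap.range (fderiv ℝ g1 q1).toLinearMap : Set W) :=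
    Submodule.closed_of_finiteDimensional _
  -- the path
  have hpath : Tendsto (fun t : ℝ => q0 + t • v) (𝓝 0) (𝓝 q0) := by
    have : Continuous (fun t : ℝ => q0 + t • v) := by fun_prop
    simpa using this.tendsto 0
  have hTpath : Tendsto (fun t : ℝ => T (q0 + t • v)) (𝓝 0) (𝓝 q1) := by
    rw [← hTq]; exact hT.tendsto.comp hpath
  have hev1 : ∀ᶠ t : ℝ in 𝓝 0, l * ‖T (q0 + t • v) - q1‖ ≤ ‖g1 (T (q0 + t • v)) - g1 q1‖ :=
    (hTpath.prodMk_nhds tendsto_const_nhds).eventually hb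
  have hev2 : ∀ᶠ t : ℝ in 𝓝 0, g0 (q0 + t • v) = g1 (T (q0 + t • v)) := hpath.eventually he
  have heq0 : g0 q0 = g1 q1 := by rw [← hTq]; exact he.eq_of_nhds
  -- derivative along the path
  have hder : HasDerivAt (fun t : ℝ => g0 (q0 + t • v)) (fderiv ℝ g0 q0 v) 0 := by
    have h1 : HasDerivAt (fun s : ℝ => q0 + s • v) v 0 := by
      simpa using (hasDerivAt_id (0 : ℝ)).smul_const v |>.const_add q0
    have h2 : HasFDerivAt g0 (fderiv ℝ g0 q0) (q0 + (0 : ℝ) • v) := by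
      simpa using hd0.hasFDerivAt
    exact h2.comp_hasDerivAt 0 h1
  have hO : (fun t : ℝ => g0 (q0 + t • v) - g0 q0) =O[𝓝 0] (fun t : ℝ => t) := by
    have := hder.differentiableAt.isBigO_sub
    simpa using this
  have hw : (fun t : ℝ => T (q0 + t • v) - q1) =O[𝓝 0] (fun t : ℝ => t) := by
    refine Asymptotics.IsBigO.trans ?_ hO
    apply Asymptotics.IsBigO.of_bound (1 / l)
    filter_upwards [hev1, hev2] with t h1 h2
    rw [one_div, inv_mul_eq_div, le_div_iff₀ hl, h2, heq0]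
    linarith
  have ho : (fun t : ℝ => g1 (T (q0 + t • v)) - g1 q1 - fderiv ℝ g1 q1 (T (q0 + t • v) - q1))
      =o[𝓝 0] (fun t : ℝ => t) := by
    have h1 := hs1.hasFDerivAt.isLittleO
    exact (h1.comp_tendsto hTpath).trans_isBigO hw
  have ho2 : (fun t : ℝ => g0 (q0 + t • v) - g0 q0 - t • fderiv ℝ g0 q0 v)
      =o[𝓝 0] (fun t : ℝ => t) := by
    have := hder.isLittleO
    simpa using this
  have ho3 : (fun t : ℝ => fderiv ℝ g1 q1 (T (q0 + t • v) - q1) - t • fderiv ℝ g0 q0 v)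
      =o[𝓝 0] (fun t : ℝ => t) := by
    refine (ho2.sub ho).congr' ?_ EventuallyEq.rfl
    filter_upwards [hev2] with t ht
    rw [ht, heq0]; abel
  have hlim : Tendsto (fun t : ℝ => t⁻¹ • fderiv ℝ g1 q1 (T (q0 + t • v) - q1)) (𝓝[≠] 0)
      (𝓝 (fderiv ℝ g0 q0 v)) := by
    have h1 : Tendsto (fun t : ℝ => t⁻¹ • (fderiv ℝ g1 q1 (T (q0 + t • v) - q1)
        - t • fderiv ℝ g0 q0 v)) (𝓝[≠] 0) (𝓝 0) := by
      have := (ho3.mono (nhdsWithin_le_nhds (s := {0}ᶜ))).tendsto_inv_smul_nhds_zero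
      simpa using this
    have h2 := h1.add_const (fderiv ℝ g0 q0 v)
    rw [zero_add] at h2
    refine h2.congr' ?_
    filter_upwards [self_mem_nhdsWithin] with t ht
    have ht0 : t ≠ 0 := ht
    rw [smul_sub, smul_smul, inv_mul_cancel₀ ht0, one_smul]; abel
  refine hclosed.mem_of_tendsto hlim (Eventually.of_forall fun t => ?_)
  exact ⟨t⁻¹ • (T (q0 + t • v) - q1), by simp⟩

theorem range_eq {g0 g1 : V → W} {T : V → V} {q0 q1 : V} (hd0 : DifferentiableAt ℝ g0 q0)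
    (hJ0 : Function.Injective (fderiv ℝ g0 q0))
    (hs1 : HasStrictFDerivAt g1 (fderiv ℝ g1 q1) q1)
    (hJ1 : Function.Injective (fderiv ℝ g1 q1))
    (hT : ContinuousAt T q0) (hTq : T q0 = q1) (he : g0 =ᶠ[𝓝 q0] g1 ∘ T) :
    LinearMap.range (fderiv ℝ g0 q0).toLinearMap = LinearMap.range (fderiv ℝ g1 q1).toLinearMap := by
  apply Submodule.eq_of_le_of_finrank_eq (range_le hd0 hs1 hJ1 hT hTq he)
  rw [LinearMap.finrank_range_of_inj (f := (fderiv ℝ g0 q0).toLinearMap) hJ0,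
    LinearMap.finrank_range_of_inj (f := (fderiv ℝ g1 q1).toLinearMap) hJ1]

/-- the distance to the tangent plane of an immersion is continuous -/
theorem nn_continuousAt {g : V → W} {q₀ : V} (hg : ContDiffAt ℝ ∞ g q₀)
    (hJ : Function.Injective (fderiv ℝ g q₀)) {z : W} (hz : ‖z‖ = 1) :
    ContinuousAt (fun q => J168.nn g z q) q₀ := by
  have hcd1 : ContDiffAt ℝ 1 (fderiv ℝ g) q₀ := hg.fderiv_right (by norm_cast)
  obtain ⟨K, t, ht, hLip⟩ := hcd1.exists_lipschitzOnWith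
  obtain ⟨l', hl', hb⟩ := lower_bound hJ
  set C : ℝ := K + 1 with hCdef
  have hC0 : 0 < C := by positivity
  set l : ℝ := l' / 2 with hldef
  have hl0 : 0 < l := by positivity
  obtain ⟨r1, hr1, hb1⟩ := Metric.mem_nhds_iff.mp ht
  set r := min r1 (l / C) with hrdef
  have hr : 0 < r := lt_min hr1 (by positivity)
  have hsub : Metric.ball q₀ r ⊆ Metric.ball q₀ r1 := Metric.ball_subset_ball (min_le_left _ _)
  have hCb : ∀ q ∈ Metric.ball q₀ r, ∀ q' ∈ Metric.ball q₀ r, ∀ v,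
      ‖fderiv ℝ g q v - fderiv ℝ g q' v‖ ≤ C * ‖q - q'‖ * ‖v‖ := by
    intro q hq q' hq' v
    have h1 := hLip.norm_sub_le (hb1 (hsub hq)) (hb1 (hsub hq'))
    calc ‖fderiv ℝ g q v - fderiv ℝ g q' v‖ = ‖(fderiv ℝ g q - fderiv ℝ g q') v‖ := rfl
      _ ≤ ‖fderiv ℝ g q - fderiv ℝ g q'‖ * ‖v‖ := ContinuousLinearMap.le_opNorm _ _
      _ ≤ (K * ‖q - q'‖) * ‖v‖ := mul_le_mul_of_nonneg_right h1 (norm_nonneg _)
      _ ≤ C * ‖q - q'‖ * ‖v‖ := by
          apply mul_le_mul_of_nonneg_right _ (norm_nonneg _)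
          apply mul_le_mul_of_nonneg_right _ (norm_nonneg _)
          rw [hCdef]; linarith
  have hq₀r : q₀ ∈ Metric.ball q₀ r := Metric.mem_ball_self hr
  have hlb : ∀ p ∈ Metric.ball q₀ r, ∀ v, l * ‖v‖ ≤ ‖fderiv ℝ g p v‖ := by
    intro p hp v
    have h2 := hCb p hp q₀ hq₀r v
    have h3 : ‖p - q₀‖ ≤ l / C := by
      rw [mem_ball_iff_norm] at hp
      exact hp.le.trans (min_le_right _ _)
    have h4 : C * ‖p - q₀‖ * ‖v‖ ≤ l * ‖v‖ := by
      apply mul_le_mul_of_nonneg_right _ (norm_nonneg _)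
      rw [le_div_iff₀ hC0] at h3
      linarith
    have h5 : 2 * l * ‖v‖ ≤ ‖fderiv ℝ g q₀ v‖ := by
      have := hb v
      rw [hldef]; linarith
    have h6 := norm_sub_norm_le (fderiv ℝ g q₀ v) (fderiv ℝ g p v)
    rw [norm_sub_rev] at h6
    linarith
  obtain ⟨v', hv', hn'⟩ := J168.dec_exists (fderiv ℝ g q₀) z
  have hbound : ∀ᶠ q in 𝓝 q₀, |J168.nn g z q - J168.nn g z q₀| ≤
      C / l * ‖q - q₀‖ * (‖fderiv ℝ g q₀ v'‖ + C / l * ‖q - q₀‖) := by
    filter_upwards [Metric.ball_mem_nhds q₀ hr] with q hq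
    exact J168.nn_lip hl0 hC0.le hlb hCb hz hq hq₀r hv' hn'
  have hlim : Tendsto (fun q => C / l * ‖q - q₀‖ * (‖fderiv ℝ g q₀ v'‖ + C / l * ‖q - q₀‖))
      (𝓝 q₀) (𝓝 0) := by
    have : Continuous (fun q => C / l * ‖q - q₀‖ * (‖fderiv ℝ g q₀ v'‖ + C / l * ‖q - q₀‖)) := by
      fun_prop
    simpa using this.tendsto q₀
  rw [ContinuousAt, tendsto_iff_dist_tendsto_zero]
  refine squeeze_zero' (Eventually.of_forall fun q => dist_nonneg) ?_ hlim
  filter_upwards [hbound] with q hq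
  rw [Real.dist_eq]; exact hq

end lin

section mfd

variable {M : Type} [TopologicalSpace M] [ChartedSpace (E 2) M]

theorem rd_contDiffAt {f : M → E 4} (hI : Imm f) (x0 : M) {q : E 2}
    (hq : q ∈ (chartAt (E 2) x0).target) : ContDiffAt ℝ ∞ (rd f x0) q :=
  (hI x0).1.contDiffAt ((chartAt (E 2) x0).open_target.mem_nhds hq)

theorem rd_strict {f : M → E 4} (hI : Imm f) (x0 : M) {q : E 2}
    (hq : q ∈ (chartAt (E 2) x0).target) :
    HasStrictFDerivAt (rd f x0) (fderiv ℝ (rd f x0) q) q :=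
  (rd_contDiffAt hI x0 hq).hasStrictFDerivAt (by simp)

/-- the tangent plane can be computed in any chart -/
theorem TP_eq {f : M → E 4} (hI : Imm f) {x0 x : M} (hx : x ∈ (chartAt (E 2) x0).source) :
    LinearMap.range (fderiv ℝ (rd f x0) (chartAt (E 2) x0 x)).toLinearMap = TP f x := by
  set e0 := chartAt (E 2) x0 with he0
  set e1 := chartAt (E 2) x with he1
  have hx1 : x ∈ e1.source := mem_chart_source (E 2) x
  have hq0 : e0 x ∈ e0.target := e0.map_source hx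
  have hq1 : e1 x ∈ e1.target := e1.map_source hx1
  refine range_eq (T := fun q => e1 (e0.symm q)) (rd_strict hI x0 hq0).hasFDerivAt.differentiableAt
    ((hI x0).2 _ hq0) (rd_strict hI x hq1) ((hI x).2 _ hq1) ?_ ?_ ?_
  · have h1 : ContinuousAt e0.symm (e0 x) := e0.continuousAt_symm hq0
    have h2 : ContinuousAt e1 (e0.symm (e0 x)) := by
      rw [e0.left_inv hx]; exact e1.continuousAt hx1
    exact ContinuousAt.comp h2 h1
  · change e1 (e0.symm (e0 x)) = e1 x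
    rw [e0.left_inv hx]
  · have h1 : ContinuousAt e0.symm (e0 x) := e0.continuousAt_symm hq0
    have h2 : ∀ᶠ q in 𝓝 (e0 x), e0.symm q ∈ e1.source := by
      apply h1.eventually
      rw [e0.left_inv hx]
      exact e1.open_source.mem_nhds hx1
    filter_upwards [h2] with q hq
    change f (e0.symm q) = f (e1.symm (e1 (e0.symm q)))
    rw [e1.left_inv hq]

/-- distance to the tangent plane -/
noncomputable def nt (f : M → E 4) (z : E 4) (x : M) : ℝ := Metric.infDist z (TP f x : Set (E 4))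

theorem nt_eq {f : M → E 4} (hI : Imm f) {x0 x : M} (hx : x ∈ (chartAt (E 2) x0).source) (z : E 4) :
    nt f z x = J168.nn (rd f x0) z (chartAt (E 2) x0 x) := by
  rw [nt, ← TP_eq hI hx]; rfl

theorem nt_continuous {f : M → E 4} (hI : Imm f) {z : E 4} (hz : ‖z‖ = 1) :
    Continuous (nt f z) := by
  rw [continuous_iff_continuousAt]
  intro x
  have hx := mem_chart_source (E 2) x
  have h1 := nn_continuousAt (rd_contDiffAt hI x ((chartAt (E 2) x).map_source hx))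
    ((hI x).2 _ ((chartAt (E 2) x).map_source hx)) hz
  have h2 : ContinuousAt (fun y => J168.nn (rd f x) z (chartAt (E 2) x y)) x :=
    ContinuousAt.comp (f := fun y => chartAt (E 2) x y) h1 ((chartAt (E 2) x).continuousAt hx)
  refine h2.congr ?_
  filter_upwards [(chartAt (E 2) x).open_source.mem_nhds hx] with y hy
  rw [nt_eq hI hy]

theorem finrank_TP {f : M → E 4} (hI : Imm f) (x : M) : Module.finrank ℝ (TP f x) = 2 := by
  have hx := mem_chart_source (E 2) x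
  have hJ := (hI x).2 _ ((chartAt (E 2) x).map_source hx)
  have := LinearMap.finrank_range_of_inj (f := (fderiv ℝ (rd f x) (chartAt (E 2) x x)).toLinearMap) hJ
  rw [TP, this]; simp

/-- the normal part is attained by a unit normal -/
theorem exists_normal {f : M → E 4} (hI : Imm f) (x : M) (z : E 4) :
    ∃ ν : E 4, (x, ν) ∈ NB f ∧ ⟪z, ν⟫_ℝ = nt f z x := by
  obtain ⟨v, hv, hn⟩ := J168.dec_exists (fderiv ℝ (rd f x) (chartAt (E 2) x x)) z
  change nt f z x = _ at hn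
  set J := fderiv ℝ (rd f x) (chartAt (E 2) x x) with hJ
  by_cases h0 : z - J v = 0
  · -- any unit normal
    have hne : (TP f x)ᗮ ≠ ⊥ := by
      intro hbot
      have h1 := Submodule.finrank_add_finrank_orthogonal (TP f x)
      rw [hbot, finrank_TP hI x] at h1
      simp at h1
    obtain ⟨w, hw, hw0⟩ := Submodule.exists_mem_ne_zero_of_ne_bot hne
    refine ⟨‖w‖⁻¹ • w, ⟨?_, ?_⟩, ?_⟩
    · change ‖‖w‖⁻¹ • w‖ = 1
      rw [norm_smul, norm_inv, norm_norm, inv_mul_cancel₀ (norm_ne_zero_iff.mpr hw0)]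
    · intro u hu
      change ⟪u, ‖w‖⁻¹ • w⟫_ℝ = 0
      rw [inner_smul_right, hw u hu, mul_zero]
    · rw [hn, h0, norm_zero, inner_smul_right]
      have : z = J v := sub_eq_zero.mp h0
      have h2 : ⟪z, w⟫_ℝ = 0 := by
        rw [this]; exact hw _ ⟨v, rfl⟩
      rw [h2, mul_zero]
  · have hp : 0 < ‖z - J v‖ := norm_pos_iff.mpr h0
    refine ⟨‖z - J v‖⁻¹ • (z - J v), ⟨?_, ?_⟩, ?_⟩
    · change ‖‖z - J v‖⁻¹ • (z - J v)‖ = 1
      rw [norm_smul, norm_inv, norm_norm, inv_mul_cancel₀ hp.ne']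
    · rintro _ ⟨u, rfl⟩
      change ⟪J u, ‖z - J v‖⁻¹ • (z - J v)⟫_ℝ = 0
      rw [inner_smul_right, real_inner_comm, hv u, mul_zero]
    · rw [hn, inner_smul_right]
      have h1 : ⟪z, z - J v⟫_ℝ = ‖z - J v‖ ^ 2 := by
        have h2 : ⟪J v, z - J v⟫_ℝ = 0 := by rw [real_inner_comm]; exact hv v
        have h3 : ⟪z - J v, z - J v⟫_ℝ = ‖z - J v‖ ^ 2 := real_inner_self_eq_norm_sq _
        rw [inner_sub_left, h2, sub_zero] at h3
        exact h3
      rw [h1]; field_simp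

theorem inner_le_nt {f : M → E 4} {x : M} {ν : E 4} (hν : (x, ν) ∈ NB f) (z : E 4) :
    ⟪z, ν⟫_ℝ ≤ nt f z x := by
  rw [nt, Metric.le_infDist ⟨_, (TP f x).zero_mem⟩]
  intro w hw
  have h1 : ⟪w, ν⟫_ℝ = 0 := hν.2 w hw
  have h2 : ⟪z, ν⟫_ℝ = ⟪z - w, ν⟫_ℝ := by rw [inner_sub_left, h1, sub_zero]
  rw [h2, dist_eq_norm]
  have h3 := real_inner_le_norm (z - w) ν
  rwa [show ‖ν‖ = 1 from hν.1, mul_one] at h3

theorem NB_neg {f : M → E 4} {x : M} {ν : E 4} (hν : (x, ν) ∈ NB f) : (x, -ν) ∈ NB f := by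
  refine ⟨?_, ?_⟩
  · change ‖-ν‖ = 1
    rw [norm_neg]; exact hν.1
  · intro w hw
    change ⟪w, -ν⟫_ℝ = 0
    rw [inner_neg_right, hν.2 w hw, neg_zero]

theorem inner_tube (f : M → E 4) (ε : ℝ) (z ν : E 4) (x : M) :
    ⟪z, tube f ε (x, ν)⟫_ℝ = ⟪z, f x⟫_ℝ + ε * ⟪z, ν⟫_ℝ := by
  rw [tube, inner_add_right, inner_smul_right]

theorem AA_eq {f : M → E 4} (hI : Imm f) {ε : ℝ} (hε : 0 < ε) (z : E 4) (c : ℝ) :
    AA f ε z c = {x | c ≤ ⟪z, f x⟫_ℝ + ε * nt f z x} := by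
  ext x
  constructor
  · rintro ⟨ν, hν, hc⟩
    rw [inner_tube] at hc
    have := mul_le_mul_of_nonneg_left (inner_le_nt hν z) hε.le
    change c ≤ ⟪z, f x⟫_ℝ + ε * nt f z x
    linarith
  · intro hc
    obtain ⟨ν, hν, he⟩ := exists_normal hI x z
    refine ⟨ν, hν, ?_⟩
    rw [inner_tube, he]; exact hc

theorem BB_eq {f : M → E 4} (hI : Imm f) {ε : ℝ} (hε : 0 < ε) (z : E 4) (c : ℝ) :
    BB f ε z c = {x | c ≤ ⟪z, f x⟫_ℝ - ε * nt f z x} := by
  ext x
  constructor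
  · intro h
    obtain ⟨ν, hν, he⟩ := exists_normal hI x z
    have := h (-ν) (NB_neg hν)
    rw [inner_tube, inner_neg_right, he] at this
    change c ≤ ⟪z, f x⟫_ℝ - ε * nt f z x
    linarith
  · intro hc ν hν
    rw [inner_tube]
    have h1 := inner_le_nt (NB_neg hν) z
    rw [inner_neg_right] at h1
    have := mul_le_mul_of_nonneg_left h1 hε.le
    change c ≤ ⟪z, f x⟫_ℝ - ε * nt f z x at hc
    linarith

/-- local maxima of the height function in direction `z` are strict global maxima -/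
def Good (f : M → E 4) (z : E 4) : Prop :=
  ∀ x, IsLocalMax (fun y => ⟪z, f y⟫_ℝ) x → ∀ y, ⟪z, f x⟫_ℝ ≤ ⟪z, f y⟫_ℝ → y = x

/-- support function of the image of a set -/
noncomputable def supD (f : M → E 4) (D : Set M) (z : E 4) : ℝ :=
  sSup ((fun x => ⟪z, f x⟫_ℝ) '' D)

theorem continuous_height {f : M → E 4} (hf : Continuous f) (z : E 4) :
    Continuous (fun x => ⟪z, f x⟫_ℝ) := by fun_prop

theorem le_supD {f : M → E 4} (hf : Continuous f) {D : Set M} (hD : IsCompact D) {x : M}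
    (hx : x ∈ D) (z : E 4) : ⟪z, f x⟫_ℝ ≤ supD f D z :=
  le_csSup (hD.image (continuous_height hf z)).bddAbove ⟨x, hx, rfl⟩

theorem exists_supD {f : M → E 4} (hf : Continuous f) {D : Set M} (hD : IsCompact D)
    (hne : D.Nonempty) (z : E 4) : ∃ x ∈ D, supD f D z = ⟪z, f x⟫_ℝ :=
  hD.exists_sSup_image_eq hne (continuous_height hf z).continuousOn

theorem supD_lipschitz {f : M → E 4} (hf : Continuous f) {D : Set M} (hD : IsCompact D)
    (hne : D.Nonempty) : ∃ K, LipschitzWith K (supD f D) := by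
  obtain ⟨R, hR⟩ := (hD.image hf).isBounded.exists_norm_le
  refine ⟨R.toNNReal, LipschitzWith.of_le_add_mul _ fun z w => ?_⟩
  obtain ⟨x, hx, he⟩ := exists_supD hf hD hne z
  have h1 := le_supD hf hD hx w
  have h2 : ⟪z, f x⟫_ℝ = ⟪w, f x⟫_ℝ + ⟪z - w, f x⟫_ℝ := by rw [inner_sub_left]; ring
  have h3 := real_inner_le_norm (z - w) (f x)
  have h4 : ‖f x‖ ≤ R := hR _ ⟨x, hx, rfl⟩
  have h5 : ‖z - w‖ * ‖f x‖ ≤ (R.toNNReal : ℝ) * dist z w := by
    rw [dist_eq_norm, mul_comm]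
    exact mul_le_mul_of_nonneg_right (h4.trans (Real.le_coe_toNNReal R)) (norm_nonneg _)
  rw [he, h2]; linarith

theorem unique_max {f : M → E 4} (hf : Continuous f) {D : Set M} (hD : IsCompact D) {z : E 4}
    (hd : DifferentiableAt ℝ (supD f D) z) {x y : M} (hx : x ∈ D) (hy : y ∈ D)
    (hx1 : supD f D z = ⟪z, f x⟫_ℝ) (hy1 : supD f D z = ⟪z, f y⟫_ℝ) : f x = f y := by
  have key : ∀ x ∈ D, supD f D z = ⟪z, f x⟫_ℝ → ∀ v, fderiv ℝ (supD f D) z v = ⟪v, f x⟫_ℝ := by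
    intro x hx hx1 v
    have hlin : HasFDerivAt (fun w : E 4 => ⟪w, f x⟫_ℝ) (innerSL ℝ (f x)) z := by
      have h := (innerSL ℝ (f x)).hasFDerivAt (x := z)
      have e : (fun w : E 4 => ⟪w, f x⟫_ℝ) = fun w => innerSL ℝ (f x) w := by
        funext w; rw [innerSL_apply_apply, real_inner_comm]
      rw [e]; exact h
    have hmin : IsLocalMin (fun w => supD f D w - ⟪w, f x⟫_ℝ) z := by
      refine Eventually.of_forall fun w => ?_
      have := le_supD hf hD hx w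
      change supD f D z - ⟪z, f x⟫_ℝ ≤ supD f D w - ⟪w, f x⟫_ℝ
      rw [hx1]; linarith
    have h0 := hmin.hasFDerivAt_eq_zero (hd.hasFDerivAt.sub hlin)
    have h1 := sub_eq_zero.mp h0
    rw [h1, innerSL_apply_apply, real_inner_comm]
  apply ext_inner_left ℝ
  intro v
  rw [← key x hx hx1 v, ← key y hy hy1 v]

theorem exists_inj_nhds {f : M → E 4} (hI : Imm f) (x : M) : ∃ N ∈ 𝓝 x, InjOn f N := by
  set e := chartAt (E 2) x with he
  have hx : x ∈ e.source := mem_chart_source (E 2) x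
  obtain ⟨l, hl, hev⟩ := locally_inj (rd_strict hI x (e.map_source hx)) ((hI x).2 _ (e.map_source hx))
  rw [nhds_prod_eq] at hev
  obtain ⟨t, ht, hb⟩ := Filter.eventually_prod_self_iff'.mp hev
  refine ⟨e.source ∩ e ⁻¹' t, Filter.inter_mem (e.open_source.mem_nhds hx)
    ((e.continuousAt hx).preimage_mem_nhds ht), ?_⟩
  rintro y ⟨hy, hyt⟩ w ⟨hw, hwt⟩ hfe
  have h1 := hb _ hyt _ hwt
  have h2 : rd f x (e y) = rd f x (e w) := by
    change f (e.symm (e y)) = f (e.symm (e w))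
    rw [e.left_inv hy, e.left_inv hw, hfe]
  simp only [h2, sub_self, norm_zero] at h1
  have h3 : ‖e y - e w‖ = 0 := by
    have := norm_nonneg (e y - e w)
    nlinarith
  exact e.injOn hy hw (sub_eq_zero.mp (norm_eq_zero.mp h3))

theorem good_ae [CompactSpace M] [T2Space M] {f : M → E 4} (hf : Continuous f) (hI : Imm f)
    (hT : Tight0 f) : ∀ᵐ z : E 4, Good f z := by
  have : SecondCountableTopology M := ChartedSpace.secondCountable_of_sigmaCompact (E 2) M
  have hb := TopologicalSpace.isBasis_countableBasis M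
  have hae : ∀ᵐ z : E 4, ∀ U ∈ TopologicalSpace.countableBasis M, (closure U).Nonempty →
      DifferentiableAt ℝ (supD f (closure U)) z := by
    rw [MeasureTheory.ae_ball_iff (TopologicalSpace.countable_countableBasis M)]
    intro U hU
    by_cases hne : (closure U).Nonempty
    · obtain ⟨K, hK⟩ := supD_lipschitz hf isClosed_closure.isCompact hne
      filter_upwards [hK.ae_differentiableAt] with z hz _
      exact hz
    · exact Eventually.of_forall fun z h => absurd h hne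
  filter_upwards [hae] with z hz
  intro x hx y hxy
  obtain ⟨N, hN, hinj⟩ := exists_inj_nhds hI x
  have hN1 : {y | ⟪z, f y⟫_ℝ ≤ ⟪z, f x⟫_ℝ} ∈ 𝓝 x := hx
  obtain ⟨U, hU, hxU, hUN⟩ := hb.exists_closure_subset (Filter.inter_mem hN hN1)
  have hxc : x ∈ closure U := subset_closure hxU
  have hDc : IsCompact (closure U) := isClosed_closure.isCompact
  have hd := hz U hU ⟨x, hxc⟩
  have hsup : supD f (closure U) z = ⟪z, f x⟫_ℝ := by
    obtain ⟨w, hw, he⟩ := exists_supD hf hDc ⟨x, hxc⟩ z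
    apply le_antisymm
    · rw [he]; exact (hUN hw).2
    · exact le_supD hf hDc hxc z
  have huniq : ∀ w ∈ closure U, ⟪z, f x⟫_ℝ ≤ ⟪z, f w⟫_ℝ → w = x := by
    intro w hw hle
    have h1 : ⟪z, f w⟫_ℝ = ⟪z, f x⟫_ℝ := le_antisymm (hUN hw).2 hle
    exact hinj (hUN hw).1 (hUN hxc).1
      (unique_max hf hDc hd hw hxc (by rw [hsup, h1]) hsup)
  by_contra hne
  have hUo : IsOpen U := TopologicalSpace.isOpen_of_mem_countableBasis hU
  have hpre := hT z ⟪z, f x⟫_ℝ
  obtain ⟨w, hw1, hw2, hw3⟩ := hpre U {x}ᶜ hUo isOpen_compl_singleton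
    (fun w _ => by
      by_cases h : w = x
      · left; rw [h]; exact hxU
      · right; exact h)
    ⟨x, show ⟪z, f x⟫_ℝ ≤ ⟪z, f x⟫_ℝ from le_refl _, hxU⟩ ⟨y, hxy, hne⟩
  exact hw3 (huniq w (subset_closure hw2) hw1)

theorem good_smul {f : M → E 4} {z : E 4} (h : Good f z) {a : ℝ} (ha : 0 < a) :
    Good f (a • z) := by
  intro x hx y hxy
  apply h x
  · filter_upwards [hx] with w hw
    simp only [inner_smul_left, RCLike.conj_to_real] at hw
    exact le_of_mul_le_mul_left hw ha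
  · simp only [inner_smul_left, RCLike.conj_to_real] at hxy
    exact le_of_mul_le_mul_left hxy ha

/-- superlevel sets of a function with at most one local maximum are preconnected -/
theorem superlevel_preconnected [CompactSpace M] [T2Space M] {φ : M → ℝ} (hφ : Continuous φ)
    (hu : ∀ x y, IsLocalMax φ x → IsLocalMax φ y → x = y) (c : ℝ) :
    IsPreconnected {x | c ≤ φ x} := by
  rw [isPreconnected_closed_iff]
  intro t t' ht ht' hcov hne hne'
  by_contra hcon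
  rw [Set.not_nonempty_iff_eq_empty] at hcon
  have hsc : IsClosed {x | c ≤ φ x} := isClosed_le continuous_const hφ
  have aux : ∀ t t' : Set M, IsClosed t → IsClosed t' → {x | c ≤ φ x} ⊆ t ∪ t' →
      ({x | c ≤ φ x} ∩ t).Nonempty → {x | c ≤ φ x} ∩ (t ∩ t') = ∅ →
      ∃ x, (x ∈ {x | c ≤ φ x} ∩ t) ∧ IsLocalMax φ x := by
    intro t t' ht ht' hcov hne hcon
    obtain ⟨x, hx, hmax⟩ := (hsc.inter ht).isCompact.exists_isMaxOn hne hφ.continuousOn
    refine ⟨x, hx, ?_⟩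
    have hxt' : x ∉ t' := fun h => by
      have : x ∈ {x | c ≤ φ x} ∩ (t ∩ t') := ⟨hx.1, hx.2, h⟩
      rw [hcon] at this; exact this
    filter_upwards [ht'.isOpen_compl.mem_nhds hxt'] with y hy
    by_cases hc : c ≤ φ y
    · exact hmax ⟨hc, (hcov hc).resolve_right hy⟩
    · push Not at hc
      exact hc.le.trans hx.1
  obtain ⟨x, hx, hxm⟩ := aux t t' ht ht' hcov hne hcon
  obtain ⟨y, hy, hym⟩ := aux t' t ht' ht (by rwa [Set.union_comm]) hne'
    (by rwa [Set.inter_comm t' t])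
  have : x = y := hu x y hxm hym
  subst this
  have h2 : x ∈ {x | c ≤ φ x} ∩ (t ∩ t') := ⟨hx.1, hx.2, hy.2⟩
  rw [hcon] at h2; exact h2

theorem superlevel_preconnected' [CompactSpace M] [T2Space M] {φ : M → ℝ} (hφ : Continuous φ)
    (hu : ∀ x y, IsLocalMax φ x → IsLocalMax φ y → x = y) (c : ℝ) :
    IsPreconnected {x | c < φ x} := by
  apply isPreconnected_of_forall_pair
  intro x hx y hy
  refine ⟨{w | min (φ x) (φ y) ≤ φ w}, ?_, show min (φ x) (φ y) ≤ φ x from min_le_left _ _,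
    show min (φ x) (φ y) ≤ φ y from min_le_right _ _, superlevel_preconnected hφ hu _⟩
  intro w hw
  have hx' : c < φ x := hx
  have hy' : c < φ y := hy
  have hw' : min (φ x) (φ y) ≤ φ w := hw
  exact lt_of_lt_of_le (lt_min hx' hy') hw'

end mfd

theorem tube_levels (hLM : LocalMax) {M : Type} [TopologicalSpace M] [CompactSpace M] [T2Space M]
    [ConnectedSpace M] [ChartedSpace (E 2) M] {f : M → E 4} (hf : Continuous f) (hI : Imm f)
    (hT : Tight0 f) :
    ∃ ε₀ : ℝ, 0 < ε₀ ∧ ∀ ε : ℝ, 0 < ε → ε < ε₀ →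
      ∃ G : Set (E 4), Dense G ∧ ∀ z ∈ G, ∀ c : ℝ,
        IsPreconnected (AA f ε z c) ∧ IsPreconnected (BB f ε z c) ∧
        IsPreconnected (AA f ε z c)ᶜ ∧ IsPreconnected (BB f ε z c)ᶜ := by
  -- uniform constants
  have hloc : ∀ x0 : M, ∃ ε₀ : ℝ, 0 < ε₀ ∧ ∃ N ∈ 𝓝 x0, N ⊆ (chartAt (E 2) x0).source ∧
      ∀ ε : ℝ, 0 < ε → ε < ε₀ → ∀ z : E 4, ‖z‖ = 1 → ∀ x ∈ N,
        (IsLocalMax (fun y => ⟪z, f y⟫_ℝ + ε * nt f z y) x → IsLocalMax (fun y => ⟪z, f y⟫_ℝ) x) ∧
        (IsLocalMax (fun y => ⟪z, f y⟫_ℝ - ε * nt f z y) x →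
          IsLocalMax (fun y => ⟪z, f y⟫_ℝ) x) := by
    intro x0
    set e := chartAt (E 2) x0 with he
    have hx0 : x0 ∈ e.source := mem_chart_source (E 2) x0
    obtain ⟨ε₀, hε₀, r, hr, hball, hkey⟩ := hLM (rd f x0) e.target e.open_target (hI x0).1 (hI x0).2
      (e x0) (e.map_source hx0)
    refine ⟨ε₀, hε₀, e.source ∩ e ⁻¹' (Metric.ball (e x0) r),
      Filter.inter_mem (e.open_source.mem_nhds hx0)
        ((e.continuousAt hx0).preimage_mem_nhds (Metric.ball_mem_nhds _ hr)),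
      Set.inter_subset_left, ?_⟩
    rintro ε hε hεε z hz x ⟨hxs, hxb⟩
    have hk := hkey ε hε hεε z hz (e x) hxb
    -- transfer of local maxima
    have htr : ∀ (Φ : M → ℝ) (Ψ : E 2 → ℝ), (∀ p ∈ e.target, Ψ p = Φ (e.symm p)) →
        (IsLocalMax Φ x ↔ IsLocalMax Ψ (e x)) := by
      intro Φ Ψ hΨ
      have hqt : e x ∈ e.target := e.map_source hxs
      constructor
      · intro h
        have h1 : ∀ᶠ p in 𝓝 (e x), Φ (e.symm p) ≤ Φ x := by
          have hc := e.continuousAt_symm hqt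
          rw [ContinuousAt, e.left_inv hxs] at hc
          exact hc.eventually h
        filter_upwards [h1, e.open_target.mem_nhds hqt] with p hp hpt
        rw [hΨ p hpt, hΨ _ hqt, e.left_inv hxs]
        exact hp
      · intro h
        have h1 : ∀ᶠ y in 𝓝 x, Ψ (e y) ≤ Ψ (e x) := (e.continuousAt hxs).eventually h
        filter_upwards [h1, e.open_source.mem_nhds hxs] with y hy hys
        rw [hΨ _ (e.map_source hys), hΨ _ hqt, e.left_inv hys, e.left_inv hxs] at hy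
        exact hy
    have hn : ∀ p ∈ e.target, nl (rd f x0) z p = nt f z (e.symm p) := by
      intro p hp
      rw [nt_eq hI (e.map_target hp) z, ← he, e.right_inv hp]; rfl
    constructor
    · intro h
      have h1 := (htr (fun y => ⟪z, f y⟫_ℝ + ε * nt f z y)
        (fun p => ⟪z, rd f x0 p⟫_ℝ + ε * nl (rd f x0) z p)
        (fun p hp => by rw [hn p hp]; rfl)).mp h
      exact (htr (fun y => ⟪z, f y⟫_ℝ) (fun p => ⟪z, rd f x0 p⟫_ℝ) (fun p _ => rfl)).mpr (hk.1 h1)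
    · intro h
      have h1 := (htr (fun y => ⟪z, f y⟫_ℝ - ε * nt f z y)
        (fun p => ⟪z, rd f x0 p⟫_ℝ - ε * nl (rd f x0) z p)
        (fun p hp => by rw [hn p hp]; rfl)).mp h
      exact (htr (fun y => ⟪z, f y⟫_ℝ) (fun p => ⟪z, rd f x0 p⟫_ℝ) (fun p _ => rfl)).mpr (hk.2 h1)
  choose εf hεf N hN hNs hkey using hloc
  obtain ⟨t, ht⟩ := CompactSpace.elim_nhds_subcover N hN
  obtain ⟨m, hm0, hm⟩ : ∃ m : ℝ, 0 < m ∧ ∀ x ∈ t, m ≤ εf x := by
    classical
    clear ht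
    induction t using Finset.induction_on with
    | empty => exact ⟨1, one_pos, fun x hx => absurd hx (Finset.notMem_empty x)⟩
    | insert a s ha ih =>
      obtain ⟨m, hm0, hm⟩ := ih
      refine ⟨min m (εf a), lt_min hm0 (hεf a), fun x hx => ?_⟩
      rcases Finset.mem_insert.mp hx with rfl | hx
      · exact min_le_right _ _
      · exact (min_le_left _ _).trans (hm x hx)
  have hall : ∀ ε : ℝ, 0 < ε → ε < m → ∀ z : E 4, ‖z‖ = 1 → ∀ x : M,
      (IsLocalMax (fun y => ⟪z, f y⟫_ℝ + ε * nt f z y) x → IsLocalMax (fun y => ⟪z, f y⟫_ℝ) x) ∧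
      (IsLocalMax (fun y => ⟪z, f y⟫_ℝ - ε * nt f z y) x →
        IsLocalMax (fun y => ⟪z, f y⟫_ℝ) x) := by
    intro ε hε hεm z hz x
    have hx : x ∈ ⋃ x0 ∈ t, N x0 := by
      rw [ht]; exact mem_univ x
    simp only [mem_iUnion] at hx
    obtain ⟨x0, hx0, hxN⟩ := hx
    exact hkey x0 ε hε (hεm.trans_le (hm x0 hx0)) z hz x hxN
  refine ⟨m, hm0, fun ε hε hεm => ?_⟩
  -- unit directions
  have hunit : ∀ u : E 4, ‖u‖ = 1 → Good f u → ∀ c : ℝ,
      IsPreconnected {x | c ≤ ⟪u, f x⟫_ℝ + ε * nt f u x} ∧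
      IsPreconnected {x | c ≤ ⟪u, f x⟫_ℝ - ε * nt f u x} ∧
      IsPreconnected {x | c < ⟪u, f x⟫_ℝ + ε * nt f u x} ∧
      IsPreconnected {x | c < ⟪u, f x⟫_ℝ - ε * nt f u x} := by
    intro u hu hg c
    have hc1 : Continuous (fun x => ⟪u, f x⟫_ℝ + ε * nt f u x) :=
      (continuous_height hf u).add ((nt_continuous hI hu).const_mul ε)
    have hc2 : Continuous (fun x => ⟪u, f x⟫_ℝ - ε * nt f u x) :=
      (continuous_height hf u).sub ((nt_continuous hI hu).const_mul ε)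
    have huq : ∀ x y, IsLocalMax (fun y => ⟪u, f y⟫_ℝ) x → IsLocalMax (fun y => ⟪u, f y⟫_ℝ) y →
        x = y := by
      intro x y hx hy
      rcases le_total ⟪u, f x⟫_ℝ ⟪u, f y⟫_ℝ with h | h
      · exact (hg x hx y h).symm
      · exact hg y hy x h
    have hu1 : ∀ x y, IsLocalMax (fun x => ⟪u, f x⟫_ℝ + ε * nt f u x) x →
        IsLocalMax (fun x => ⟪u, f x⟫_ℝ + ε * nt f u x) y → x = y :=
      fun x y hx hy => huq x y ((hall ε hε hεm u hu x).1 hx) ((hall ε hε hεm u hu y).1 hy)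
    have hu2 : ∀ x y, IsLocalMax (fun x => ⟪u, f x⟫_ℝ - ε * nt f u x) x →
        IsLocalMax (fun x => ⟪u, f x⟫_ℝ - ε * nt f u x) y → x = y :=
      fun x y hx hy => huq x y ((hall ε hε hεm u hu x).2 hx) ((hall ε hε hεm u hu y).2 hy)
    exact ⟨superlevel_preconnected hc1 hu1 c, superlevel_preconnected hc2 hu2 c,
      superlevel_preconnected' hc1 hu1 c, superlevel_preconnected' hc2 hu2 c⟩
  have hae := good_ae hf hI hT
  have hae' : ∀ᵐ z : E 4, Good f (-z) :=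
    (MeasureTheory.Measure.measurePreserving_neg (MeasureTheory.volume : MeasureTheory.Measure (E 4))).quasiMeasurePreserving.ae hae
  have hne0 : ∀ᵐ z : E 4, z ≠ 0 := by
    rw [MeasureTheory.ae_iff]; simp
  refine ⟨{z | Good f z ∧ Good f (-z) ∧ z ≠ 0},
    MeasureTheory.Measure.dense_of_ae (μ := (MeasureTheory.volume : MeasureTheory.Measure (E 4)))
      (by filter_upwards [hae, hae', hne0] with z h1 h2 h3; exact ⟨h1, h2, h3⟩), ?_⟩
  rintro z ⟨hg1, hg2, hz0⟩ c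
  have hzp : 0 < ‖z‖ := norm_pos_iff.mpr hz0
  set u : E 4 := ‖z‖⁻¹ • z with hudef
  have hu : ‖u‖ = 1 := by
    rw [hudef, norm_smul, norm_inv, norm_norm, inv_mul_cancel₀ hzp.ne']
  have hgu : Good f u := good_smul hg1 (by positivity)
  have hgu' : Good f (-u) := by
    have := good_smul hg2 (a := ‖z‖⁻¹) (by positivity)
    rwa [smul_neg] at this
  have hzu : z = ‖z‖ • u := by
    rw [hudef, smul_smul, mul_inv_cancel₀ hzp.ne', one_smul]
  have hin : ∀ x, ⟪z, f x⟫_ℝ = ‖z‖ * ⟪u, f x⟫_ℝ := by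
    intro x
    conv_lhs => rw [hzu]
    rw [inner_smul_left]; simp
  have hnt : ∀ x, nt f z x = ‖z‖ * nt f u x := by
    intro x
    obtain ⟨v, hv, hn⟩ := J168.dec_exists (fderiv ℝ (rd f x) (chartAt (E 2) x x)) u
    obtain ⟨w, hw, hn'⟩ := J168.dec_exists (fderiv ℝ (rd f x) (chartAt (E 2) x x)) z
    change nt f u x = _ at hn
    change nt f z x = _ at hn'
    apply le_antisymm
    · have h1 : nt f z x ≤ dist z (fderiv ℝ (rd f x) (chartAt (E 2) x x) (‖z‖ • v)) :=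
        Metric.infDist_le_dist_of_mem ⟨‖z‖ • v, rfl⟩
      refine h1.trans (le_of_eq ?_)
      rw [dist_eq_norm, hn]
      conv_lhs => rw [hzu]
      rw [map_smul, norm_smul, norm_norm, hu, mul_one, ← smul_sub, norm_smul, norm_norm]
    · have h1 : nt f u x ≤ dist u (fderiv ℝ (rd f x) (chartAt (E 2) x x) (‖z‖⁻¹ • w)) :=
        Metric.infDist_le_dist_of_mem ⟨‖z‖⁻¹ • w, rfl⟩
      have h2 : dist u (fderiv ℝ (rd f x) (chartAt (E 2) x x) (‖z‖⁻¹ • w)) =
          ‖z‖⁻¹ * nt f z x := by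
        rw [dist_eq_norm, hn', hudef, map_smul, ← smul_sub, norm_smul, norm_inv, norm_norm]
      rw [h2] at h1
      calc ‖z‖ * nt f u x ≤ ‖z‖ * (‖z‖⁻¹ * nt f z x) := mul_le_mul_of_nonneg_left h1 hzp.le
        _ = nt f z x := by rw [← mul_assoc, mul_inv_cancel₀ hzp.ne', one_mul]
  have hnneg : ∀ x, nt f (-u) x = nt f u x := by
    intro x
    apply le_antisymm
    · obtain ⟨v, hv, hn⟩ := J168.dec_exists (fderiv ℝ (rd f x) (chartAt (E 2) x x)) u
      change nt f u x = _ at hn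
      have h1 : nt f (-u) x ≤ dist (-u) (fderiv ℝ (rd f x) (chartAt (E 2) x x) (-v)) :=
        Metric.infDist_le_dist_of_mem ⟨-v, rfl⟩
      rw [map_neg, dist_neg_neg, dist_eq_norm, ← hn] at h1
      exact h1
    · obtain ⟨v, hv, hn⟩ := J168.dec_exists (fderiv ℝ (rd f x) (chartAt (E 2) x x)) (-u)
      change nt f (-u) x = _ at hn
      have h1 : nt f u x ≤ dist u (fderiv ℝ (rd f x) (chartAt (E 2) x x) (-v)) :=
        Metric.infDist_le_dist_of_mem ⟨-v, rfl⟩
      rw [map_neg, ← dist_neg_neg, neg_neg, dist_eq_norm, ← hn] at h1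
      exact h1
  have hinneg : ∀ x, ⟪-u, f x⟫_ℝ = -⟪u, f x⟫_ℝ := fun x => inner_neg_left _ _
  have hA : AA f ε z c = {x | c / ‖z‖ ≤ ⟪u, f x⟫_ℝ + ε * nt f u x} := by
    rw [AA_eq hI hε]
    ext x
    simp only [mem_ofPred_eq]
    rw [hin, hnt, div_le_iff₀ hzp]
    constructor <;> intro h <;> nlinarith
  have hB : BB f ε z c = {x | c / ‖z‖ ≤ ⟪u, f x⟫_ℝ - ε * nt f u x} := by
    rw [BB_eq hI hε]
    ext x
    simp only [mem_ofPred_eq]
    rw [hin, hnt, div_le_iff₀ hzp]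
    constructor <;> intro h <;> nlinarith
  have hA' : (AA f ε z c)ᶜ = {x | -(c / ‖z‖) < ⟪-u, f x⟫_ℝ - ε * nt f (-u) x} := by
    rw [hA]
    ext x
    simp only [mem_compl_iff, mem_ofPred_eq, not_le]
    rw [hinneg, hnneg]
    constructor <;> intro h <;> linarith
  have hB' : (BB f ε z c)ᶜ = {x | -(c / ‖z‖) < ⟪-u, f x⟫_ℝ + ε * nt f (-u) x} := by
    rw [hB]
    ext x
    simp only [mem_compl_iff, mem_ofPred_eq, not_le]
    rw [hinneg, hnneg]
    constructor <;> intro h <;> linarith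
  have k1 := hunit u hu hgu (c / ‖z‖)
  have k2 := hunit (-u) (by rw [norm_neg]; exact hu) hgu' (-(c / ‖z‖))
  rw [hA', hB', hA, hB]
  exact ⟨k1.1, k1.2.1, k2.2.2.2, k2.2.2.1⟩

end Pool.Agent.TH369.J169
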